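import Pool.Agent.Helper93.UBr.Exact

/-!
# Solving `y - x = a` on the blocks
-/

open WittVector

namespace Pool.Agent.Helper93.UBr

universe u

section Blocks

variable {h : ℕ} [NeZero h] {p : ℕ} [Fact p.Prime] {R : Type u} [CommRing R] [CharP R p]
  [PerfectRing R p]

omit [NeZero h] in
theorem iter_add (π : ZMod h × ZMod h → ZMod h × ZMod h) (ε : ZMod h)
    (hπ : ∀ u, π u = (u.1 + ε, u.2 + ε)) (t : ℕ) (u : ZMod h × ZMod h) :
    π^[t] u = (u.1 + t * ε, u.2 + t * ε) := by
  induction t generalizing u with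
  | zero => simp
  | succ t ih =>
    rw [Function.iterate_succ_apply, ih, hπ]
    push_cast
    ext
    · simp only; ring
    · simp only; ring

/-- The block of the exterior square of the module with small slope. -/
theorem solve_ww (w : ZMod h → ℕ) (w_le : ∀ i, w i ≤ 1) (w_succ : ∀ i, w i = 1 → w (i + 1) = 0)
    (ww : ∀ s, ∃ l, w l = 0 ∧ w (l + s) = 0 ∧ ¬ (w (l - 1) = 1 ∧ w (l - 1 + s) = 1))
    (a : ZMod h → ZMod h → WittVector p R) (ha : ∀ i j, a j i = - a i j) (hd : ∀ i, a i i = 0)
    (hpk : ∀ i j, w (i - 1) = 1 → w (j - 1) = 1 → (p : WittVector p R) ∣ a i j) :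
    ∃ x y : ZMod h → ZMod h → WittVector p R,
      ((∀ i j, x j i = - x i j) ∧ ∀ i, x i i = 0) ∧ ((∀ i j, y j i = - y i j) ∧ ∀ i, y i i = 0) ∧
      (∀ i j, (p : WittVector p R) * y (i + 1) (j + 1) =
        (p : WittVector p R) ^ (w i + w j) * frobenius (x i j)) ∧
      ∀ i j, a i j = y i j - x i j := by
  classical
  set P : WittVector p R := (p : WittVector p R) with hP
  let c : ZMod h × ZMod h → ℕ := fun u => if w (u.1 - 1) = 1 ∧ w (u.2 - 1) = 1 then 1 else 0
  have hc : ∀ u : ZMod h × ZMod h, ∃ z, a u.1 u.2 = P ^ c u * z := by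
    intro u
    by_cases h1 : w (u.1 - 1) = 1 ∧ w (u.2 - 1) = 1
    · obtain ⟨z, hz⟩ := hpk u.1 u.2 h1.1 h1.2
      exact ⟨z, by simp only [c, if_pos h1, pow_one]; exact hz⟩
    · exact ⟨a u.1 u.2, by simp only [c, if_neg h1, pow_zero, one_mul]⟩
  choose b hb using hc
  let δ : ZMod h × ZMod h → ℕ := fun u => if w u.1 = 0 ∧ w u.2 = 0 ∧ c u = 0 then 1 else 0
  let π : ZMod h × ZMod h → ZMod h × ZMod h := fun u => (u.1 + 1, u.2 + 1)
  have hM : ∀ u, ∃ t < h, 1 ≤ δ (π^[t] u) := by
    intro u
    obtain ⟨l, h1, h2, h3⟩ := ww (u.2 - u.1)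
    refine ⟨(l - u.1).val, ZMod.val_lt _, ?_⟩
    rw [iter_add π 1 (fun _ => rfl)]
    have e1 : u.1 + (((l - u.1).val : ℕ) : ZMod h) * 1 = l := by
      rw [ZMod.natCast_val, ZMod.cast_id]; ring
    have e2 : u.2 + (((l - u.1).val : ℕ) : ZMod h) * 1 = l + (u.2 - u.1) := by
      rw [ZMod.natCast_val, ZMod.cast_id]; ring
    rw [e1, e2]
    have h4 : c (l, l + (u.2 - u.1)) = 0 := by
      simp only [c]
      rw [if_neg]
      rintro ⟨h5, h6⟩
      apply h3
      refine ⟨h5, ?_⟩
      rw [← h6]
      congr 1; ring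
    simp only [δ]
    rw [if_pos ⟨h1, h2, h4⟩]
  obtain ⟨y, hy⟩ := psi_surj (CData.ti p R) π δ h hM b
  -- symmetries
  have hcs : ∀ u : ZMod h × ZMod h, c u.swap = c u := by
    intro u
    simp only [c, Prod.fst_swap, Prod.snd_swap, and_comm]
  have hδs : ∀ u : ZMod h × ZMod h, δ u.swap = δ u := by
    intro u
    simp only [δ, hcs, Prod.fst_swap, Prod.snd_swap]
    congr 1
    apply propext
    tauto
  have hbs : ∀ u : ZMod h × ZMod h, b u.swap = - b u := by
    intro u
    apply p_pow_mul_inj (c u)
    have h1 := hb u.swap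
    have h2 := hb u
    rw [hcs] at h1
    simp only [Prod.fst_swap, Prod.snd_swap] at h1
    rw [← hP, ← h1, ha u.1 u.2, h2]; ring
  have hbd : ∀ i, b (i, i) = 0 := by
    intro i
    apply p_pow_mul_inj (c (i, i))
    have h2 := hb (i, i)
    simp only at h2
    rw [← hP, ← h2, hd]; ring
  have hys : ∀ u : ZMod h × ZMod h, y u.swap = - y u := by
    intro u
    have h1 := psi_unique (CData.ti p R) π δ h hM y (fun u => - y u.swap) b hy (fun u => by
      have h2 := hy u.swap
      have h3 : π u.swap = (π u).swap := rfl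
      rw [hδs, h3, hbs] at h2
      rw [map_neg]
      linear_combination - h2) u
    rw [h1]; ring
  have hyd : ∀ i, y (i, i) = 0 := by
    intro i
    have h1 := psi_unique (CData.ti p R) π δ h hM y (fun u => if u.1 = u.2 then 0 else y u) b hy
      (fun u => by
      by_cases h2 : u.1 = u.2
      · have h3 : (π u).1 = (π u).2 := by simp only [π, h2]
        have h4 : b u = 0 := by
          have : u = (u.1, u.1) := Prod.ext rfl h2.symm
          rw [this]; exact hbd _
        simp only [if_pos h2, if_pos h3, h4, map_zero, mul_zero, sub_zero]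
      · have h3 : ¬ (π u).1 = (π u).2 := by
          simp only [π]
          intro h4
          exact h2 (add_right_cancel h4)
        simp only [if_neg h2, if_neg h3]
        exact hy u) (i, i)
    simpa using h1
  have htiP : ∀ n : ℕ, (CData.ti p R) (P ^ n) = P ^ n := fun n => map_p_pow _ n
  have hfti : ∀ z : WittVector p R, frobenius ((CData.ti p R) z) = z := fun z =>
    (frobeniusEquiv p R).apply_symm_apply z
  refine ⟨fun i j => P ^ (c (i, j) + δ (i, j)) * (CData.ti p R) (y (i + 1, j + 1)),
    fun i j => P ^ c (i, j) * y (i, j), ⟨fun i j => ?_, fun i => ?_⟩, ⟨fun i j => ?_, fun i => ?_⟩,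
    fun i j => ?_, fun i j => ?_⟩
  · have h1 := hcs (i, j)
    have h2 := hδs (i, j)
    have h3 := hys (i + 1, j + 1)
    simp only [Prod.swap_prod_mk] at h1 h2 h3
    beta_reduce
    rw [h1, h2, h3, map_neg]; ring
  · beta_reduce
    rw [hyd, map_zero, mul_zero]
  · have h1 := hcs (i, j)
    have h3 := hys (i, j)
    simp only [Prod.swap_prod_mk] at h1 h3
    beta_reduce
    rw [h1, h3]; ring
  · beta_reduce
    rw [hyd, mul_zero]
  · beta_reduce
    rw [map_mul, map_pow, hfti]
    have h0 : (frobenius P : WittVector p R) = P := map_natCast _ _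
    rw [h0, ← mul_assoc, ← mul_assoc, ← pow_succ', ← pow_add]
    congr 2
    -- exponents
    have e1 : c (i + 1, j + 1) = if w i = 1 ∧ w j = 1 then 1 else 0 := by
      simp only [c, add_sub_cancel_right]
    rw [e1]
    have hwi := w_le i
    have hwj := w_le j
    by_cases hi : w i = 1
    · have hc0 : c (i, j) = 0 := by
        simp only [c]
        rw [if_neg]
        rintro ⟨h5, -⟩
        have := w_succ _ h5
        rw [sub_add_cancel] at this
        omega
      have hδ0 : δ (i, j) = 0 := by
        simp only [δ]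
        rw [if_neg]
        rintro ⟨h5, -⟩
        omega
      rw [hc0, hδ0, hi]
      by_cases hj : w j = 1
      · rw [hj]; simp
      · have : w j = 0 := by omega
        rw [this]; simp
    · have hi0 : w i = 0 := by omega
      by_cases hj : w j = 1
      · have hc0 : c (i, j) = 0 := by
          simp only [c]
          rw [if_neg]
          rintro ⟨-, h5⟩
          have := w_succ _ h5
          rw [sub_add_cancel] at this
          omega
        have hδ0 : δ (i, j) = 0 := by
          simp only [δ]
          rw [if_neg]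
          rintro ⟨-, h5, -⟩
          omega
        rw [hc0, hδ0, hi0, hj]; simp
      · have hj0 : w j = 0 := by omega
        rw [hi0, hj0]
        simp only [δ, hi0, hj0, true_and]
        have hc1 : c (i, j) = 0 ∨ c (i, j) = 1 := by
          simp only [c]
          split_ifs
          · exact Or.inr rfl
          · exact Or.inl rfl
        rcases hc1 with h5 | h5 <;> rw [h5] <;> simp
  · have h1 := hy (i, j)
    have h2 := hb (i, j)
    simp only at h2
    beta_reduce
    rw [h2, ← h1, pow_add]
    ring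

/-- The block of the exterior square of the module with large slope. -/
theorem solve_vv (v : ZMod h → ℕ) (v_le : ∀ i, v i ≤ 1) (v_succ : ∀ i, v i = 0 → v (i + 1) = 1)
    (vv : ∀ s, ∃ l, v (l - 1) = 1 ∧ v (l - 1 + s) = 1 ∧ ¬ (v l = 0 ∧ v (l + s) = 0))
    (a : ZMod h → ZMod h → WittVector p R) (ha : ∀ i j, a j i = - a i j) (hd : ∀ i, a i i = 0)
    (hpk : ∀ i j, v i = 0 → v j = 0 → (p : WittVector p R) ∣ a i j) :
    ∃ x y : ZMod h → ZMod h → WittVector p R,
      ((∀ i j, x j i = - x i j) ∧ ∀ i, x i i = 0) ∧ ((∀ i j, y j i = - y i j) ∧ ∀ i, y i i = 0) ∧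
      (∀ i j, (p : WittVector p R) * y (i + 1) (j + 1) =
        (p : WittVector p R) ^ (v i + v j) * frobenius (x i j)) ∧
      ∀ i j, a i j = y i j - x i j := by
  classical
  set P : WittVector p R := (p : WittVector p R) with hP
  let c : ZMod h × ZMod h → ℕ := fun u => if v u.1 = 0 ∧ v u.2 = 0 then 1 else 0
  have hc : ∀ u : ZMod h × ZMod h, ∃ z, a u.1 u.2 = P ^ c u * z := by
    intro u
    by_cases h1 : v u.1 = 0 ∧ v u.2 = 0
    · obtain ⟨z, hz⟩ := hpk u.1 u.2 h1.1 h1.2
      exact ⟨z, by simp only [c, if_pos h1, pow_one]; exact hz⟩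
    · exact ⟨a u.1 u.2, by simp only [c, if_neg h1, pow_zero, one_mul]⟩
  choose b hb using hc
  let δ : ZMod h × ZMod h → ℕ := fun u =>
    if v (u.1 - 1) = 1 ∧ v (u.2 - 1) = 1 ∧ c u = 0 then 1 else 0
  let π : ZMod h × ZMod h → ZMod h × ZMod h := fun u => (u.1 - 1, u.2 - 1)
  have hM : ∀ u, ∃ t < h, 1 ≤ δ (π^[t] u) := by
    intro u
    obtain ⟨l, h1, h2, h3⟩ := vv (u.2 - u.1)
    refine ⟨(u.1 - l).val, ZMod.val_lt _, ?_⟩
    rw [iter_add π (-1) (fun u => by simp only [π, sub_eq_add_neg])]
    have e1 : u.1 + (((u.1 - l).val : ℕ) : ZMod h) * (-1) = l := by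
      rw [ZMod.natCast_val, ZMod.cast_id]; ring
    have e2 : u.2 + (((u.1 - l).val : ℕ) : ZMod h) * (-1) = l + (u.2 - u.1) := by
      rw [ZMod.natCast_val, ZMod.cast_id]; ring
    rw [e1, e2]
    have h4 : c (l, l + (u.2 - u.1)) = 0 := by
      simp only [c]
      rw [if_neg h3]
    simp only [δ]
    have h5 : v (l + (u.2 - u.1) - 1) = 1 := by
      rw [← h2]
      congr 1; ring
    rw [if_pos ⟨h1, h5, h4⟩]
  let fr : RingAut (WittVector p R) := frobeniusEquiv p R
  obtain ⟨x, hx⟩ := psi_surj fr π δ h hM (fun u => - b u)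
  have hcs : ∀ u : ZMod h × ZMod h, c u.swap = c u := by
    intro u
    simp only [c, Prod.fst_swap, Prod.snd_swap, and_comm]
  have hδs : ∀ u : ZMod h × ZMod h, δ u.swap = δ u := by
    intro u
    simp only [δ, hcs, Prod.fst_swap, Prod.snd_swap]
    congr 1
    apply propext
    tauto
  have hbs : ∀ u : ZMod h × ZMod h, b u.swap = - b u := by
    intro u
    apply p_pow_mul_inj (c u)
    have h1 := hb u.swap
    have h2 := hb u
    rw [hcs] at h1
    simp only [Prod.fst_swap, Prod.snd_swap] at h1
    rw [← hP, ← h1, ha u.1 u.2, h2]; ring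
  have hbd : ∀ i, b (i, i) = 0 := by
    intro i
    apply p_pow_mul_inj (c (i, i))
    have h2 := hb (i, i)
    simp only at h2
    rw [← hP, ← h2, hd]; ring
  have hxs : ∀ u : ZMod h × ZMod h, x u.swap = - x u := by
    intro u
    have h1 := psi_unique fr π δ h hM x (fun u => - x u.swap) (fun u => - b u) hx (fun u => by
      have h2 := hx u.swap
      have h3 : π u.swap = (π u).swap := rfl
      rw [hδs, h3, hbs] at h2
      rw [map_neg]
      linear_combination - h2) u
    rw [h1]; ring
  have hxd : ∀ i, x (i, i) = 0 := by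
    intro i
    have h1 := psi_unique fr π δ h hM x (fun u => if u.1 = u.2 then 0 else x u)
      (fun u => - b u) hx (fun u => by
      by_cases h2 : u.1 = u.2
      · have h3 : (π u).1 = (π u).2 := by simp only [π, h2]
        have h4 : b u = 0 := by
          have : u = (u.1, u.1) := Prod.ext rfl h2.symm
          rw [this]; exact hbd _
        simp only [if_pos h2, if_pos h3, h4, map_zero, mul_zero, sub_zero, neg_zero]
      · have h3 : ¬ (π u).1 = (π u).2 := by
          simp only [π]
          intro h4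
          exact h2 (sub_left_injective h4)
        simp only [if_neg h2, if_neg h3]
        exact hx u) (i, i)
    simpa using h1
  have hfr : ∀ z : WittVector p R, fr z = frobenius z := fun z => rfl
  -- the key relation
  have key : ∀ i j, P * (P ^ c (i + 1, j + 1) * (x (i + 1, j + 1) + b (i + 1, j + 1))) =
      P ^ (v i + v j) * frobenius (P ^ c (i, j) * x (i, j)) := by
    intro i j
    have h1 := hx (i + 1, j + 1)
    have h2 : π (i + 1, j + 1) = (i, j) := by simp only [π, add_sub_cancel_right]
    rw [h2, hfr] at h1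
    have h3 : x (i + 1, j + 1) + b (i + 1, j + 1) = P ^ δ (i + 1, j + 1) * frobenius (x (i, j)) := by
      linear_combination h1
    have h0 : (frobenius P : WittVector p R) = P := map_natCast _ _
    rw [h3, map_mul, map_pow, h0, ← mul_assoc, ← mul_assoc, ← mul_assoc, ← pow_succ', ← pow_add,
      ← pow_add]
    congr 2
    have e1 : δ (i + 1, j + 1) = if v i = 1 ∧ v j = 1 ∧ c (i + 1, j + 1) = 0 then 1 else 0 := by
      simp only [δ, add_sub_cancel_right]
    rw [e1]
    have hvi := v_le i
    have hvj := v_le j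
    by_cases hi : v i = 0
    · have hc0 : c (i + 1, j + 1) = 0 := by
        simp only [c]
        rw [if_neg]
        rintro ⟨h5, -⟩
        have := v_succ _ hi
        omega
      rw [hc0, hi]
      by_cases hj : v j = 0
      · have : c (i, j) = 1 := by simp only [c]; rw [if_pos ⟨hi, hj⟩]
        rw [this, hj]; simp
      · have h6 : v j = 1 := by omega
        have : c (i, j) = 0 := by simp only [c]; rw [if_neg (fun h => hj h.2)]
        rw [this, h6]; simp
    · have hi1 : v i = 1 := by omega
      have hcij : c (i, j) = 0 := by simp only [c]; rw [if_neg (fun h => hi h.1)]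
      by_cases hj : v j = 0
      · have hc0 : c (i + 1, j + 1) = 0 := by
          simp only [c]
          rw [if_neg]
          rintro ⟨-, h5⟩
          have := v_succ _ hj
          omega
        rw [hc0, hi1, hj, hcij]; simp
      · have hj1 : v j = 1 := by omega
        rw [hi1, hj1, hcij]
        have hc1 : c (i + 1, j + 1) = 0 ∨ c (i + 1, j + 1) = 1 := by
          simp only [c]
          split_ifs
          · exact Or.inr rfl
          · exact Or.inl rfl
        rcases hc1 with h5 | h5 <;> rw [h5] <;> simp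
  refine ⟨fun i j => P ^ c (i, j) * x (i, j),
    fun i j => P ^ c (i, j) * (x (i, j) + b (i, j)), ⟨fun i j => ?_, fun i => ?_⟩,
    ⟨fun i j => ?_, fun i => ?_⟩, key, fun i j => ?_⟩
  · have h1 := hcs (i, j)
    have h3 := hxs (i, j)
    simp only [Prod.swap_prod_mk] at h1 h3
    beta_reduce
    rw [h1, h3]; ring
  · beta_reduce
    rw [hxd, mul_zero]
  · have h1 := hcs (i, j)
    have h3 := hxs (i, j)
    have h4 := hbs (i, j)
    simp only [Prod.swap_prod_mk] at h1 h3 h4
    beta_reduce
    rw [h1, h3, h4]; ring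
  · beta_reduce
    rw [hxd, hbd, add_zero, mul_zero]
  · have h2 := hb (i, j)
    simp only at h2
    rw [h2]
    ring

end Blocks

end Pool.Agent.Helper93.UBr
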