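import Pool.Agent.Helper93.UBr.Complete

/-!
# The cyclic chain of slope zero
-/

open WittVector

namespace Pool.Agent.Helper93.UBr

universe u

variable {p : ℕ} [Fact p.Prime] {K : Type u} [Field K] [IsAlgClosed K] [CharP K p]
  [PerfectRing K p]

omit [IsAlgClosed K] [CharP K p] [PerfectRing K p] in
theorem ringAut_p_pow (θ : RingAut (WittVector p K)) (n : ℕ) :
    θ ((p : WittVector p K) ^ n) = (p : WittVector p K) ^ n := by
  rw [map_pow, map_natCast]

/-- Solving `y - x = a` along a cyclic chain of slope zero with heights `ht`: the relation between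
`x` and `y` is `p y_(l+1) = p^(e_l) σ(x_l)`, the heights satisfy `ht_(l+1) = ht_l + 1 - e_l`, they
start and end with `N`, are nondecreasing from `c0` on, and before `c0` they go up only in places
where `a` is divisible by `p` and just after going down. -/
theorem chain_solution (h N c0 : ℕ) (ht e : ℕ → ℕ) (a : ℕ → WittVector p K)
    (hh : 1 ≤ h)
    (hrec : ∀ l < h, ht (l + 1) + e l = ht l + 1)
    (ht0 : ht 0 = N) (hth : ht h = N) (ht1 : ht 1 ≤ N)
    (hf : ∀ m, m + 1 < c0 → ht (m + 2) ≤ ht (m + 1) ∨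
      (ht (m + 2) ≤ ht (m + 1) + 1 ∧ ht (m + 1) + 1 ≤ ht m ∧ (p : WittVector p K) ∣ a (m + 1)))
    (hb : ∀ l, c0 ≤ l → l < h → ht l ≤ ht (l + 1))
    (hsum : (p : WittVector p K) ^ N ∣ ∑ l ∈ Finset.range h, (p : WittVector p K) ^ ht l *
      (((frobeniusEquiv p K : RingAut (WittVector p K))⁻¹) ^ l) (a l)) :
    ∃ x y : ℕ → WittVector p K,
      (∀ l < h, (p : WittVector p K) * y (l + 1) = (p : WittVector p K) ^ e l *
        (frobeniusEquiv p K : RingAut (WittVector p K)) (x l)) ∧
      (∀ l, 1 ≤ l → l < h → a l = y l - x l) ∧ a 0 = y h - x 0 := by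
  set s : RingAut (WittVector p K) := (frobeniusEquiv p K : RingAut (WittVector p K)) with hs
  set P : WittVector p K := (p : WittVector p K) with hP
  obtain ⟨c', hc'⟩ := hsum
  obtain ⟨h', rfl⟩ : ∃ h', h = h' + 1 := ⟨h - 1, by omega⟩
  -- the partial sums
  let B : ℕ → WittVector p K := fun l => ∑ m ∈ Finset.range l, P ^ ht (m + 1) *
    ((s⁻¹) ^ (m + 1)) (a (m + 1))
  have hB : ∀ l, B (l + 1) = B l + P ^ ht (l + 1) * ((s⁻¹) ^ (l + 1)) (a (l + 1)) :=
    fun l => Finset.sum_range_succ _ _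
  have hB0 : B 0 = 0 := rfl
  have hBh : B h' + P ^ N * a 0 = P ^ N * c' := by
    rw [← hc', Finset.sum_range_succ', ht0, pow_zero, RingAut.one_apply]
  obtain ⟨ξ, hξ⟩ := exists_sub_inv_frobenius_pow (p := p) (K := K) (h' + 1) (by omega)
    (((s⁻¹) ^ (h' + 1)) (a 0) + c' - a 0)
  let Z : ℕ → WittVector p K := fun l => P ^ N * ξ - B l
  have hZlast : Z h' = P ^ N * ((s⁻¹) ^ (h' + 1)) (ξ + a 0) := by
    have h1 : B h' = P ^ N * c' - P ^ N * a 0 := by linear_combination hBh
    simp only [Z]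
    rw [h1, map_add]
    linear_combination P ^ N * hξ
  let Mx : ℕ → ℕ := fun l => max (ht l) (ht (l + 1))
  -- divisibility, before c0
  have hfw : ∀ l, (l < c0 ∨ l = 0) → P ^ Mx l ∣ Z l := by
    intro l
    induction l with
    | zero =>
      intro _
      have h1 : Mx 0 ≤ N := by simp only [Mx]; rw [zero_add]; omega
      simp only [Z, hB0, sub_zero]
      exact Dvd.dvd.mul_right (pow_dvd_pow _ h1) _
    | succ m ih =>
      intro hm
      have hm' : m + 1 < c0 := by omega
      have hZm := ih (by omega)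
      have hstep : Z (m + 1) = Z m - P ^ ht (m + 1) * ((s⁻¹) ^ (m + 1)) (a (m + 1)) := by
        simp only [Z]; rw [hB]; ring
      rw [hstep]
      rcases hf m hm' with h1 | ⟨h1, h2, h3⟩
      · have hMx : Mx (m + 1) = ht (m + 1) := by
          simp only [Mx]
          exact max_eq_left h1
        rw [hMx]
        refine dvd_sub (dvd_trans (pow_dvd_pow _ ?_) hZm) (dvd_mul_right _ _)
        simp only [Mx]
        exact le_max_right _ _
      · have hMx : Mx (m + 1) ≤ ht (m + 1) + 1 := by
          simp only [Mx]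
          exact max_le (by omega) h1
        refine dvd_sub (dvd_trans (pow_dvd_pow _ ?_) hZm) ?_
        · refine hMx.trans (h2.trans ?_)
          simp only [Mx]
          exact le_max_left _ _
        · obtain ⟨z, hz⟩ := h3
          refine dvd_trans (pow_dvd_pow _ hMx) ?_
          rw [hz, map_mul, hP, map_natCast]
          exact ⟨((s⁻¹) ^ (m + 1)) z, by ring⟩
  -- divisibility, after c0
  have hbw : ∀ d, ∀ l, l + d = h' → c0 ≤ l → P ^ Mx l ∣ Z l := by
    intro d
    induction d with
    | zero =>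
      intro l hl hcl
      have hl' : l = h' := by omega
      subst hl'
      have hMx : Mx l = N := by
        simp only [Mx]
        rw [max_eq_right (hb l hcl (by omega)), hth]
      rw [hMx, hZlast]
      exact dvd_mul_right _ _
    | succ d ih =>
      intro l hl hcl
      have h1 := ih (l + 1) (by omega) (by omega)
      have hMx : Mx l = ht (l + 1) := by
        simp only [Mx]
        exact max_eq_right (hb l hcl (by omega))
      have hMx' : ht (l + 1) ≤ Mx (l + 1) := by
        simp only [Mx]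
        exact le_max_left _ _
      have hstep : Z l = Z (l + 1) + P ^ ht (l + 1) * ((s⁻¹) ^ (l + 1)) (a (l + 1)) := by
        simp only [Z]; rw [hB]; ring
      rw [hstep, hMx]
      exact dvd_add (dvd_trans (pow_dvd_pow _ hMx') h1) (dvd_mul_right _ _)
  have hdvd : ∀ l, l < h' + 1 → P ^ Mx l ∣ Z l := by
    intro l hl
    rcases Nat.lt_or_ge l c0 with h1 | h1
    · exact hfw l (Or.inl h1)
    · exact hbw (h' - l) l (by omega) h1
  choose! z hz using hdvd
  -- the solution
  let x : ℕ → WittVector p K := fun l => (s ^ l) (P ^ (Mx l - ht l) * z l)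
  let y : ℕ → WittVector p K := fun l => (s ^ l) (P ^ (Mx (l - 1) - ht l) * z (l - 1))
  have hsP : ∀ (θ : RingAut (WittVector p K)) (n : ℕ), θ (P ^ n) = P ^ n := fun θ n =>
    ringAut_p_pow θ n
  have hxZ : ∀ l, l < h' + 1 → P ^ ht l * ((s⁻¹) ^ l) (x l) = Z l := by
    intro l hl
    have h1 : ((s⁻¹) ^ l) (x l) = P ^ (Mx l - ht l) * z l := by
      simp only [x]
      rw [← RingAut.mul_apply, inv_pow, inv_mul_cancel, RingAut.one_apply]
    rw [h1, ← mul_assoc, ← pow_add, hz l hl]
    congr 2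
    have : ht l ≤ Mx l := le_max_left _ _
    omega
  have hyZ : ∀ l, l < h' + 1 → P ^ ht (l + 1) * ((s⁻¹) ^ (l + 1)) (y (l + 1)) = Z l := by
    intro l hl
    have h1 : ((s⁻¹) ^ (l + 1)) (y (l + 1)) = P ^ (Mx l - ht (l + 1)) * z l := by
      simp only [y, Nat.add_sub_cancel]
      rw [← RingAut.mul_apply, inv_pow, inv_mul_cancel, RingAut.one_apply]
    rw [h1, ← mul_assoc, ← pow_add, hz l hl]
    congr 2
    have : ht (l + 1) ≤ Mx l := le_max_right _ _
    omega
  refine ⟨x, y, ?_, ?_, ?_⟩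
  · intro l hl
    simp only [x, y, Nat.add_sub_cancel]
    have h1 : s ((s ^ l) (P ^ (Mx l - ht l) * z l)) = (s ^ (l + 1)) (P ^ (Mx l - ht l) * z l) := by
      rw [← RingAut.mul_apply, ← pow_succ']
    rw [h1, map_mul, map_mul, hsP, hsP, ← mul_assoc, ← mul_assoc, ← pow_succ', ← pow_add]
    congr 2
    have h2 : ht (l + 1) ≤ Mx l := le_max_right _ _
    have h3 : ht l ≤ Mx l := le_max_left _ _
    have h4 := hrec l hl
    omega
  · intro l hl1 hl2
    obtain ⟨m, rfl⟩ : ∃ m, l = m + 1 := ⟨l - 1, by omega⟩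
    apply ((s⁻¹) ^ (m + 1)).injective
    apply p_pow_mul_inj (ht (m + 1))
    have h1 := hxZ (m + 1) hl2
    have h2 := hyZ m (by omega)
    have h3 : Z m - Z (m + 1) = P ^ ht (m + 1) * ((s⁻¹) ^ (m + 1)) (a (m + 1)) := by
      simp only [Z]; rw [hB]; ring
    rw [map_sub, mul_sub]
    change P ^ ht (m + 1) * _ = P ^ ht (m + 1) * _ - P ^ ht (m + 1) * _
    rw [h1, h2, ← h3]
  · have h1 := hyZ h' (by omega)
    rw [hZlast, hth] at h1
    have h2 := ((s⁻¹) ^ (h' + 1)).injective (p_pow_mul_inj N h1)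
    have h3 := hxZ 0 (by omega)
    have h4 : Z 0 = P ^ N * ξ := by simp only [Z, hB0, sub_zero]
    rw [pow_zero, RingAut.one_apply, h4, ht0] at h3
    have h5 := p_pow_mul_inj N h3
    rw [h2, h5]
    ring

end Pool.Agent.Helper93.UBr
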