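import Pool.Agent.Helper93.UBr.Main

/-!
# The combinatorial data
-/

open WittVector

namespace Pool.Agent.Helper93.UBr

universe u

namespace Comb

variable (N : ℕ)

instance instNZn : NeZero (2 * N + 1) := ⟨by omega⟩
instance instNZh : NeZero ((N + 1) * (2 * N + 1)) := ⟨by positivity⟩

/-- reduction modulo `n` -/
noncomputable def φ : ZMod ((N + 1) * (2 * N + 1)) →+* ZMod (2 * N + 1) :=
  ZMod.castHom (Dvd.intro_left (N + 1) rfl) (ZMod (2 * N + 1))

/-- the word `w` -/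
def w (i : ZMod ((N + 1) * (2 * N + 1))) : ℕ :=
  if i.val < 2 * N + 1 ∧ i.val % 2 = 0 then 1 else 0

open Classical in
/-- the word `v` -/
noncomputable def v (i : ZMod ((N + 1) * (2 * N + 1))) : ℕ := if φ N i = 0 then 0 else 1

/-- the residue of `- s` -/
noncomputable def r (s : ZMod ((N + 1) * (2 * N + 1))) : ℕ := (- φ N s).val

theorem r_lt (s) : r N s < 2 * N + 1 := ZMod.val_lt _

/-- the heights -/
noncomputable def ht (s : ZMod ((N + 1) * (2 * N + 1))) (l : ℕ) : ℕ :=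
  N + (l + 2 * N - r N s) / (2 * N + 1) - min ((l + 1) / 2) (N + 1)

theorem w_le (i) : w N i ≤ 1 := by unfold w; split_ifs <;> omega
theorem v_le (i) : v N i ≤ 1 := by unfold v; split_ifs <;> omega

theorem h_ge : 2 * N + 1 ≤ (N + 1) * (2 * N + 1) := by nlinarith

theorem h_gt (hN : 2 ≤ N) : 2 * N + 4 < (N + 1) * (2 * N + 1) := by nlinarith

theorem w_cast (m : ℕ) (hm : m < (N + 1) * (2 * N + 1)) :
    w N ((m : ℕ) : ZMod ((N + 1) * (2 * N + 1))) = if m < 2 * N + 1 ∧ m % 2 = 0 then 1 else 0 := by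
  unfold w
  rw [ZMod.val_cast_of_lt hm]

theorem v_add (l : ℕ) (s : ZMod ((N + 1) * (2 * N + 1))) :
    v N ((l : ZMod ((N + 1) * (2 * N + 1))) + s) = if l % (2 * N + 1) = r N s then 0 else 1 := by
  unfold v r
  have h1 : φ N ((l : ZMod ((N + 1) * (2 * N + 1))) + s) = 0 ↔
      l % (2 * N + 1) = (- φ N s).val := by
    rw [map_add, map_natCast, add_eq_zero_iff_eq_neg, ← ZMod.val_natCast]
    exact ⟨fun h => congrArg _ h, fun h => ZMod.val_injective _ h⟩
  by_cases h2 : l % (2 * N + 1) = (- φ N s).val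
  · rw [if_pos (h1.2 h2), if_pos h2]
  · rw [if_neg (fun h => h2 (h1.1 h)), if_neg h2]

theorem w_eq_one_iff (i) : w N i = 1 ↔ ∃ a : ℕ, a ≤ N ∧ i = ((2 * a : ℕ) : ZMod _) := by
  unfold w
  constructor
  · intro h
    have h1 : i.val < 2 * N + 1 ∧ i.val % 2 = 0 := by
      by_contra h2
      rw [if_neg h2] at h
      omega
    refine ⟨i.val / 2, by omega, ?_⟩
    have h2 : 2 * (i.val / 2) = i.val := by omega
    rw [h2, ZMod.natCast_val, ZMod.cast_id]
  · rintro ⟨a, ha, rfl⟩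
    have h1 := h_ge N
    rw [ZMod.val_cast_of_lt (by omega), if_pos (by omega)]

theorem v_eq_zero_iff (i) :
    v N i = 0 ↔ ∃ a : ℕ, a < N + 1 ∧ i = (((2 * N + 1) * a : ℕ) : ZMod _) := by
  have h0 : v N i = 0 ↔ φ N i = 0 := by
    unfold v
    constructor
    · intro h
      by_contra h2
      rw [if_neg h2] at h
      omega
    · intro h; rw [if_pos h]
  rw [h0]
  constructor
  · intro h
    have h1 : ((i.val : ℕ) : ZMod (2 * N + 1)) = 0 := by
      have e2 : ((i.val : ℕ) : ZMod ((N + 1) * (2 * N + 1))) = i := by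
        rw [ZMod.natCast_val, ZMod.cast_id]
      have h3 : φ N ((i.val : ℕ) : ZMod ((N + 1) * (2 * N + 1))) = 0 := by rw [e2, h]
      rwa [map_natCast] at h3
    rw [ZMod.natCast_eq_zero_iff] at h1
    obtain ⟨a, ha⟩ := h1
    refine ⟨a, ?_, ?_⟩
    · have h4 := ZMod.val_lt i
      rw [ha, mul_comm (N + 1)] at h4
      exact Nat.lt_of_mul_lt_mul_left h4
    · rw [← ha, ZMod.natCast_val, ZMod.cast_id]
  · rintro ⟨a, -, rfl⟩
    rw [map_natCast, ZMod.natCast_eq_zero_iff]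
    exact dvd_mul_right _ _

theorem w_succ (hN : 2 ≤ N) (i) (h : w N i = 1) : w N (i + 1) = 0 := by
  obtain ⟨a, ha, rfl⟩ := (w_eq_one_iff N i).1 h
  have e1 : (((2 * a : ℕ) : ZMod ((N + 1) * (2 * N + 1))) + 1) = ((2 * a + 1 : ℕ) : ZMod _) := by
    push_cast; ring
  have h1 := h_gt N hN
  rw [e1, w_cast N _ (by omega), if_neg (by omega)]

theorem φ_one_ne (m : ℕ) (hm : 1 ≤ m) (hm' : m < 2 * N + 1) :
    ((m : ℕ) : ZMod (2 * N + 1)) ≠ 0 := by
  intro h
  rw [ZMod.natCast_eq_zero_iff] at h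
  have := Nat.le_of_dvd (by omega) h
  omega

theorem v_eq_one_iff (i) : v N i = 1 ↔ φ N i ≠ 0 := by
  unfold v
  constructor
  · intro h h2
    rw [if_pos h2] at h
    omega
  · intro h; rw [if_neg h]

theorem v_eq_zero_iff' (i) : v N i = 0 ↔ φ N i = 0 := by
  unfold v
  constructor
  · intro h
    by_contra h2
    rw [if_neg h2] at h
    omega
  · intro h; rw [if_pos h]

theorem v_succ (hN : 2 ≤ N) (i) (h : v N i = 0) : v N (i + 1) = 1 := by
  rw [v_eq_zero_iff'] at h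
  rw [v_eq_one_iff, map_add, h, map_one, zero_add]
  have := φ_one_ne N 1 le_rfl (by omega)
  simpa using this

theorem ww (hN : 2 ≤ N) (s) : ∃ l, w N l = 0 ∧ w N (l + s) = 0 ∧
    ¬ (w N (l - 1) = 1 ∧ w N (l - 1 + s) = 1) := by
  have h1 := h_gt N hN
  have hz : ∀ m : ℕ, 2 * N + 1 ≤ m → m < (N + 1) * (2 * N + 1) →
      w N ((m : ℕ) : ZMod ((N + 1) * (2 * N + 1))) = 0 := by
    intro m h2 h3
    rw [w_cast N _ h3, if_neg (by omega)]
  by_cases h2 : w N (((2 * N + 2 : ℕ) : ZMod _) + s) = 0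
  · refine ⟨((2 * N + 2 : ℕ) : ZMod _), hz _ (by omega) (by omega), h2, ?_⟩
    rintro ⟨h3, -⟩
    have e1 : ((2 * N + 2 : ℕ) : ZMod ((N + 1) * (2 * N + 1))) - 1 = ((2 * N + 1 : ℕ) : ZMod _) := by
      push_cast; ring
    rw [e1, hz _ (by omega) (by omega)] at h3
    omega
  · have h4 : w N (((2 * N + 2 : ℕ) : ZMod _) + s) = 1 := by
      have := w_le N (((2 * N + 2 : ℕ) : ZMod _) + s)
      omega
    refine ⟨((2 * N + 3 : ℕ) : ZMod _), hz _ (by omega) (by omega), ?_, ?_⟩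
    · have h5 := w_succ N hN _ h4
      rw [← h5]
      congr 1
      push_cast; ring
    · rintro ⟨h3, -⟩
      have e1 : ((2 * N + 3 : ℕ) : ZMod ((N + 1) * (2 * N + 1))) - 1 =
          ((2 * N + 2 : ℕ) : ZMod _) := by
        push_cast; ring
      rw [e1, hz _ (by omega) (by omega)] at h3
      omega

theorem vv (hN : 2 ≤ N) (s) : ∃ l, v N (l - 1) = 1 ∧ v N (l - 1 + s) = 1 ∧
    ¬ (v N l = 0 ∧ v N (l + s) = 0) := by
  have ho : ∀ m : ℕ, 1 ≤ m → m < 2 * N + 1 →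
      v N ((m : ℕ) : ZMod ((N + 1) * (2 * N + 1))) = 1 := by
    intro m h2 h3
    rw [v_eq_one_iff, map_natCast]
    exact φ_one_ne N m h2 h3
  by_cases h2 : v N (((1 : ℕ) : ZMod _) + s) = 1
  · refine ⟨((2 : ℕ) : ZMod _), ?_, ?_, ?_⟩
    · have e1 : ((2 : ℕ) : ZMod ((N + 1) * (2 * N + 1))) - 1 = ((1 : ℕ) : ZMod _) := by
        push_cast; ring
      rw [e1]; exact ho 1 le_rfl (by omega)
    · have e1 : ((2 : ℕ) : ZMod ((N + 1) * (2 * N + 1))) - 1 = ((1 : ℕ) : ZMod _) := by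
        push_cast; ring
      rw [e1]; exact h2
    · rintro ⟨h3, -⟩
      rw [ho 2 (by omega) (by omega)] at h3
      omega
  · have h4 : v N (((1 : ℕ) : ZMod _) + s) = 0 := by
      have := v_le N (((1 : ℕ) : ZMod _) + s)
      omega
    have h5 := v_succ N hN _ h4
    refine ⟨((3 : ℕ) : ZMod _), ?_, ?_, ?_⟩
    · have e1 : ((3 : ℕ) : ZMod ((N + 1) * (2 * N + 1))) - 1 = ((2 : ℕ) : ZMod _) := by
        push_cast; ring
      rw [e1]; exact ho 2 (by omega) (by omega)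
    · have e2 : ((3 : ℕ) : ZMod ((N + 1) * (2 * N + 1))) - 1 + s = ((1 : ℕ) : ZMod _) + s + 1 := by
        push_cast; ring
      rw [e2]; exact h5
    · rintro ⟨h3, -⟩
      rw [ho 3 (by omega) (by omega)] at h3
      omega

/-- counting the zeros of `v` -/
theorem div_succ (r l : ℕ) (hr : r < 2 * N + 1) :
    (l + 1 + 2 * N - r) / (2 * N + 1) = (l + 2 * N - r) / (2 * N + 1) +
      if l % (2 * N + 1) = r then 1 else 0 := by
  have h1 : l + 1 + 2 * N - r = (l + 2 * N - r) + 1 := by omega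
  rw [h1, Nat.succ_div]
  congr 1
  have h2 : l + 2 * N - r + 1 = l + (2 * N + 1 - r) := by omega
  rw [h2]
  have h3 : (2 * N + 1) ∣ l + (2 * N + 1 - r) ↔ l % (2 * N + 1) = r := by
    have h4 : l = (2 * N + 1) * (l / (2 * N + 1)) + l % (2 * N + 1) := (Nat.div_add_mod _ _).symm
    have h5 := Nat.mod_lt l (show 0 < 2 * N + 1 by omega)
    set q := l / (2 * N + 1)
    set t := l % (2 * N + 1)
    constructor
    · intro h6
      rw [h4, add_assoc, Nat.dvd_add_right (dvd_mul_right _ _)] at h6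
      obtain ⟨c, hc⟩ := h6
      have h7 : c = 1 := by
        have h8 : 0 < c := by
          rcases Nat.eq_zero_or_pos c with h9 | h9
          · rw [h9] at hc; omega
          · exact h9
        have h9 : c < 2 := by
          by_contra h10
          have : (2 * N + 1) * 2 ≤ (2 * N + 1) * c := Nat.mul_le_mul_left _ (by omega)
          omega
        omega
      rw [h7] at hc
      omega
    · intro h6
      rw [h4, add_assoc, Nat.dvd_add_right (dvd_mul_right _ _)]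
      exact ⟨1, by omega⟩
  simp only [h3]

theorem div_ge (r l : ℕ) (hr : r < 2 * N + 1) (hl : 2 * N + 1 ≤ l) :
    1 ≤ (l + 2 * N - r) / (2 * N + 1) := by
  rw [Nat.one_le_div_iff (by omega)]
  omega

theorem ht_bound (s l) : min ((l + 1) / 2) (N + 1) ≤ N + (l + 2 * N - r N s) / (2 * N + 1) := by
  have h1 := r_lt N s
  by_cases hl : 2 * N + 1 ≤ l
  · have := div_ge N (r N s) l h1 hl
    omega
  · have hE : (l + 1) / 2 ≤ N := by omega
    exact le_trans (min_le_left _ _) (le_trans hE (Nat.le_add_right _ _))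

theorem ht_rec (s) (l : ℕ) (hl : l < (N + 1) * (2 * N + 1)) :
    ht N s (l + 1) + (w N l + v N ((l : ZMod _) + s)) = ht N s l + 1 := by
  rw [w_cast N l hl, v_add]
  unfold ht
  have h1 := r_lt N s
  have h2 := ht_bound N s l
  have h3 := ht_bound N s (l + 1)
  have h4 := div_succ N (r N s) l h1
  rw [h4] at h3 ⊢
  set D := (l + 2 * N - r N s) / (2 * N + 1)
  have h5 : min ((l + 1 + 1) / 2) (N + 1) = min ((l + 1) / 2) (N + 1) +
      if l < 2 * N + 1 ∧ l % 2 = 0 then 1 else 0 := by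
    split_ifs with h6 <;> omega
  rw [h5] at h3 ⊢
  set E := min ((l + 1) / 2) (N + 1)
  split_ifs at h3 ⊢ <;> omega

theorem ht_zero (s) : ht N s 0 = N := by
  unfold ht
  have h1 := r_lt N s
  have h2 : (0 + 2 * N - r N s) / (2 * N + 1) = 0 := Nat.div_eq_of_lt (by omega)
  rw [h2]
  simp

theorem ht_h (s) : ht N s ((N + 1) * (2 * N + 1)) = N := by
  unfold ht
  have h1 := r_lt N s
  have h0 := h_ge N
  have h2 : ((N + 1) * (2 * N + 1) + 2 * N - r N s) / (2 * N + 1) = N + 1 := by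
    have h3 : (N + 1) * (2 * N + 1) + 2 * N - r N s = (2 * N - r N s) + (2 * N + 1) * (N + 1) := by
      have : (N + 1) * (2 * N + 1) = (2 * N + 1) * (N + 1) := mul_comm _ _
      omega
    rw [h3, Nat.add_mul_div_left _ _ (by omega), Nat.div_eq_of_lt (by omega), zero_add]
  have h4 : min (((N + 1) * (2 * N + 1) + 1) / 2) (N + 1) = N + 1 := by
    apply min_eq_right
    omega
  rw [h2, h4]
  omega

theorem ht_one (hN : 2 ≤ N) (s) : ht N s 1 ≤ N := by
  have h1 := ht_rec N s 0 (by have := h_gt N hN; omega)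
  rw [ht_zero, w_cast N 0 (by have := h_gt N hN; omega), if_pos (by omega)] at h1
  rw [zero_add] at h1
  omega

theorem ht_c0 (s) : ht N s (2 * N + 1) = 0 := by
  unfold ht
  have h1 := r_lt N s
  have h2 : (2 * N + 1 + 2 * N - r N s) / (2 * N + 1) = 1 := by
    have h3 : 2 * N + 1 + 2 * N - r N s = (2 * N - r N s) + (2 * N + 1) * 1 := by omega
    rw [h3, Nat.add_mul_div_left _ _ (by omega), Nat.div_eq_of_lt (by omega), zero_add]
  have h4 : min ((2 * N + 1 + 1) / 2) (N + 1) = N + 1 := by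
    apply min_eq_right
    omega
  rw [h2, h4]
  omega

theorem ht_mono (s) (l : ℕ) (hl : 2 * N + 1 ≤ l) (hl' : l < (N + 1) * (2 * N + 1)) :
    ht N s l ≤ ht N s (l + 1) := by
  have h1 := ht_rec N s l hl'
  rw [w_cast N l hl', if_neg (by omega)] at h1
  have h2 := v_le N ((l : ZMod _) + s)
  omega

/-- the set of peaks -/
abbrev S : Type := (Σ j : Fin (N + 1), Fin j.val) ⊕ (Σ j : Fin (N + 1), Fin j.val) ⊕
  (Fin N × Fin (N + 1))

/-- the positions of the peaks -/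
def pos : S N → (ZMod ((N + 1) * (2 * N + 1)) ⊕ ZMod ((N + 1) * (2 * N + 1))) ×
    (ZMod ((N + 1) * (2 * N + 1)) ⊕ ZMod ((N + 1) * (2 * N + 1)))
  | Sum.inl ⟨j, i⟩ => (Sum.inl ((2 * i.val + 1 : ℕ) : ZMod _), Sum.inl ((2 * j.val + 1 : ℕ) : ZMod _))
  | Sum.inr (Sum.inl ⟨j, i⟩) => (Sum.inr (((2 * N + 1) * i.val : ℕ) : ZMod _),
      Sum.inr (((2 * N + 1) * j.val : ℕ) : ZMod _))
  | Sum.inr (Sum.inr ⟨i, j⟩) => (Sum.inl ((2 * i.val + 1 : ℕ) : ZMod _),
      Sum.inr (((2 * N + 1) * j.val : ℕ) : ZMod _))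

theorem cast_inj {a b : ℕ} (ha : a < (N + 1) * (2 * N + 1)) (hb : b < (N + 1) * (2 * N + 1))
    (h : ((a : ℕ) : ZMod ((N + 1) * (2 * N + 1))) = ((b : ℕ) : ZMod _)) : a = b := by
  have h1 := congrArg ZMod.val h
  rwa [ZMod.val_cast_of_lt ha, ZMod.val_cast_of_lt hb] at h1

theorem odd_lt (hN : 2 ≤ N) {i : ℕ} (hi : i < N + 1) : 2 * i + 1 < (N + 1) * (2 * N + 1) := by
  have := h_gt N hN
  omega

theorem mul_lt {i : ℕ} (hi : i < N + 1) : (2 * N + 1) * i < (N + 1) * (2 * N + 1) := by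
  rw [mul_comm (N + 1)]
  exact Nat.mul_lt_mul_of_pos_left hi (by omega)

theorem odd_inj (hN : 2 ≤ N) {i j : ℕ} (hi : i < N + 1) (hj : j < N + 1)
    (h : ((2 * i + 1 : ℕ) : ZMod ((N + 1) * (2 * N + 1))) = ((2 * j + 1 : ℕ) : ZMod _)) : i = j := by
  have := cast_inj N (odd_lt N hN hi) (odd_lt N hN hj) h
  omega

theorem mul_inj {i j : ℕ} (hi : i < N + 1) (hj : j < N + 1)
    (h : (((2 * N + 1) * i : ℕ) : ZMod ((N + 1) * (2 * N + 1))) = (((2 * N + 1) * j : ℕ) : ZMod _)) :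
    i = j := by
  have := cast_inj N (mul_lt N hi) (mul_lt N hj) h
  exact Nat.eq_of_mul_eq_mul_left (by omega) this

theorem sigma_ext {n : ℕ} {x y : Σ j : Fin n, Fin j.val} (h1 : x.1.val = y.1.val)
    (h2 : x.2.val = y.2.val) : x = y := by
  obtain ⟨a, b⟩ := x
  obtain ⟨c, d⟩ := y
  have h3 : a = c := Fin.ext h1
  subst h3
  have h4 : b = d := Fin.ext h2
  subst h4
  rfl

theorem pos_inj (hN : 2 ≤ N) : Function.Injective (pos N) := by
  intro x y h
  rcases x with ⟨a, b⟩ | ⟨a, b⟩ | ⟨a, b⟩ <;> rcases y with ⟨c, d⟩ | ⟨c, d⟩ | ⟨c, d⟩ <;>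
    simp only [pos, Prod.mk.injEq, Sum.inl.injEq, Sum.inr.injEq, reduceCtorEq, and_false,
      false_and] at h
  · have h1 := odd_inj N hN (by omega) (by omega) h.1
    have h2 := odd_inj N hN a.2 c.2 h.2
    exact congrArg _ (sigma_ext h2 h1)
  · have h1 := mul_inj N (by omega) (by omega) h.1
    have h2 := mul_inj N a.2 c.2 h.2
    exact congrArg (fun z => Sum.inr (Sum.inl z)) (sigma_ext h2 h1)
  · have h1 := odd_inj N hN (by omega) (by omega) h.1
    have h2 := mul_inj N b.2 d.2 h.2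
    exact congrArg (fun z => Sum.inr (Sum.inr z)) (Prod.ext (Fin.ext h1) (Fin.ext h2))

theorem pos_swap (hN : 2 ≤ N) (x y : S N) : pos N x ≠ (pos N y).swap := by
  intro h
  rcases x with ⟨a, b⟩ | ⟨a, b⟩ | ⟨a, b⟩ <;> rcases y with ⟨c, d⟩ | ⟨c, d⟩ | ⟨c, d⟩ <;>
    simp only [pos, Prod.swap_prod_mk, Prod.mk.injEq, Sum.inl.injEq, Sum.inr.injEq, reduceCtorEq,
      and_false, false_and] at h
  · have h1 := odd_inj N hN (by omega) c.2 h.1
    have h2 := odd_inj N hN a.2 (by omega) h.2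
    omega
  · have h1 := mul_inj N (by omega) c.2 h.1
    have h2 := mul_inj N a.2 (by omega) h.2
    omega

theorem w_odd (hN : 2 ≤ N) {i : ℕ} (hi : i < N + 1) :
    w N ((2 * i + 1 : ℕ) : ZMod ((N + 1) * (2 * N + 1))) = 0 := by
  rw [w_cast N _ (odd_lt N hN hi), if_neg (by omega)]

theorem w_even (hN : 2 ≤ N) {i : ℕ} (hi : i < N + 1) :
    w N ((2 * i : ℕ) : ZMod ((N + 1) * (2 * N + 1))) = 1 := by
  have := odd_lt N hN hi
  rw [w_cast N _ (by omega), if_pos (by omega)]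

theorem v_mul (i : ℕ) : v N (((2 * N + 1) * i : ℕ) : ZMod ((N + 1) * (2 * N + 1))) = 0 := by
  rw [v_eq_zero_iff', map_natCast, ZMod.natCast_eq_zero_iff]
  exact dvd_mul_right _ _

theorem v_mul_sub (hN : 2 ≤ N) (i : ℕ) :
    v N ((((2 * N + 1) * i : ℕ) : ZMod ((N + 1) * (2 * N + 1))) - 1) = 1 := by
  have h1 := (v_eq_zero_iff' N _).1 (v_mul N i)
  rw [v_eq_one_iff, map_sub, h1, map_one, zero_sub, neg_ne_zero]
  have := φ_one_ne N 1 le_rfl (by omega)
  simpa using this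

theorem pos_peak (hN : 2 ≤ N) (s : S N) : ∃ b b', pos N s =
    (Sum.map (· + 1) (· + 1) b, Sum.map (· + 1) (· + 1) b') ∧
    Sum.elim (w N) (v N) b = 1 ∧ Sum.elim (w N) (v N) b' = 1 ∧
    Sum.elim (w N) (v N) (pos N s).1 = 0 ∧ Sum.elim (w N) (v N) (pos N s).2 = 0 := by
  have e1 : ∀ i : ℕ, ((2 * i + 1 : ℕ) : ZMod ((N + 1) * (2 * N + 1))) =
      ((2 * i : ℕ) : ZMod _) + 1 := by intro i; push_cast; ring
  rcases s with ⟨a, b⟩ | ⟨a, b⟩ | ⟨a, b⟩
  · refine ⟨Sum.inl ((2 * b.val : ℕ) : ZMod _), Sum.inl ((2 * a.val : ℕ) : ZMod _), ?_, ?_, ?_,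
      ?_, ?_⟩
    · simp only [pos, Sum.map_inl, e1]
    · exact w_even N hN (by omega)
    · exact w_even N hN a.2
    · exact w_odd N hN (by omega)
    · exact w_odd N hN a.2
  · refine ⟨Sum.inr ((((2 * N + 1) * b.val : ℕ) : ZMod _) - 1),
      Sum.inr ((((2 * N + 1) * a.val : ℕ) : ZMod _) - 1), ?_, ?_, ?_, ?_, ?_⟩
    · simp only [pos, Sum.map_inr, sub_add_cancel]
    · exact v_mul_sub N hN _
    · exact v_mul_sub N hN _
    · exact v_mul N _
    · exact v_mul N _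
  · refine ⟨Sum.inl ((2 * a.val : ℕ) : ZMod _),
      Sum.inr ((((2 * N + 1) * b.val : ℕ) : ZMod _) - 1), ?_, ?_, ?_, ?_, ?_⟩
    · simp only [pos, Sum.map_inr, Sum.map_inl, sub_add_cancel, e1]
    · exact w_even N hN (by omega)
    · exact v_mul_sub N hN _
    · exact w_odd N hN (by omega)
    · exact v_mul N _

theorem pos_main (hN : 2 ≤ N) (s : S N) (j) : pos N s ≠ (Sum.inl ((2 * N + 1 : ℕ) : ZMod _),
    Sum.inr j) ∧ pos N s ≠ (Sum.inr j, Sum.inl ((2 * N + 1 : ℕ) : ZMod _)) := by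
  rcases s with ⟨a, b⟩ | ⟨a, b⟩ | ⟨a, b⟩
  · constructor <;> intro h <;> simp [pos] at h
  · constructor <;> intro h <;> simp [pos] at h
  · constructor
    · intro h
      simp only [pos, Prod.mk.injEq, Sum.inl.injEq] at h
      have := odd_inj N hN (by omega) (by omega : N < N + 1) h.1
      omega
    · intro h
      simp [pos] at h

theorem pos_ww (hN : 2 ≤ N) (i j) (hij : i ≠ j) (hi : w N (i - 1) = 1) (hj : w N (j - 1) = 1) :
    ∃ s, pos N s = (Sum.inl i, Sum.inl j) ∨ pos N s = (Sum.inl j, Sum.inl i) := by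
  obtain ⟨a, ha, ha'⟩ := (w_eq_one_iff N _).1 hi
  obtain ⟨b, hb, hb'⟩ := (w_eq_one_iff N _).1 hj
  have hi' : i = ((2 * a + 1 : ℕ) : ZMod _) := by
    rw [← sub_add_cancel i 1, ha']; push_cast; ring
  have hj' : j = ((2 * b + 1 : ℕ) : ZMod _) := by
    rw [← sub_add_cancel j 1, hb']; push_cast; ring
  have hab : a ≠ b := by
    rintro rfl
    exact hij (hi'.trans hj'.symm)
  rcases Nat.lt_or_gt_of_ne hab with h | h
  · exact ⟨Sum.inl ⟨⟨b, by omega⟩, ⟨a, h⟩⟩, Or.inl (by rw [hi', hj']; rfl)⟩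
  · exact ⟨Sum.inl ⟨⟨a, by omega⟩, ⟨b, h⟩⟩, Or.inr (by rw [hi', hj']; rfl)⟩

theorem pos_vv (i j) (hij : i ≠ j) (hi : v N i = 0) (hj : v N j = 0) :
    ∃ s, pos N s = (Sum.inr i, Sum.inr j) ∨ pos N s = (Sum.inr j, Sum.inr i) := by
  obtain ⟨a, ha, ha'⟩ := (v_eq_zero_iff N _).1 hi
  obtain ⟨b, hb, hb'⟩ := (v_eq_zero_iff N _).1 hj
  have hab : a ≠ b := by
    rintro rfl
    exact hij (ha'.trans hb'.symm)
  rcases Nat.lt_or_gt_of_ne hab with h | h
  · exact ⟨Sum.inr (Sum.inl ⟨⟨b, by omega⟩, ⟨a, h⟩⟩), Or.inl (by rw [ha', hb']; rfl)⟩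
  · exact ⟨Sum.inr (Sum.inl ⟨⟨a, by omega⟩, ⟨b, h⟩⟩), Or.inr (by rw [ha', hb']; rfl)⟩

theorem pos_wv (hN : 2 ≤ N) (s) (m : ℕ) (hm : m + 1 < 2 * N + 1) :
    ht N s (m + 2) ≤ ht N s (m + 1) ∨
    (ht N s (m + 2) ≤ ht N s (m + 1) + 1 ∧ ht N s (m + 1) + 1 ≤ ht N s m ∧
      ∃ t, pos N t = (Sum.inl ((m + 1 : ℕ) : ZMod _), Sum.inr (((m + 1 : ℕ) : ZMod _) + s))) := by
  have h0 := h_gt N hN
  have h1 : ht N s (m + 2) + (w N ((m + 1 : ℕ) : ZMod _) + v N (((m + 1 : ℕ) : ZMod _) + s)) =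
      ht N s (m + 1) + 1 := ht_rec N s (m + 1) (by omega)
  have h2 := ht_rec N s m (by omega)
  rw [w_cast N _ (by omega)] at h1 h2
  by_cases hw : m % 2 = 0
  · by_cases hv : v N (((m + 1 : ℕ) : ZMod _) + s) = 0
    · right
      rw [hv] at h1
      have hv' : v N ((m : ZMod _) + s) = 1 := by
        have h3 : v N ((m : ZMod _) + s) ≠ 0 := by
          intro h4
          have h5 := v_succ N hN _ h4
          have e1 : ((m : ℕ) : ZMod ((N + 1) * (2 * N + 1))) + s + 1 =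
              ((m + 1 : ℕ) : ZMod _) + s := by push_cast; ring
          rw [e1, hv] at h5
          omega
        have := v_le N ((m : ZMod _) + s)
        omega
      rw [if_neg (by omega)] at h1
      rw [if_pos (by omega), hv'] at h2
      refine ⟨by omega, by omega, ?_⟩
      obtain ⟨a, ha, ha'⟩ := (v_eq_zero_iff N _).1 hv
      refine ⟨Sum.inr (Sum.inr ⟨⟨m / 2, by omega⟩, ⟨a, ha⟩⟩), ?_⟩
      simp only [pos]
      rw [ha']
      have : 2 * (m / 2) + 1 = m + 1 := by omega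
      rw [this]
    · left
      omega
  · left
    rw [if_pos (by omega)] at h1
    omega

/-- The combinatorial data for the exponent `N`. -/
noncomputable def data (hN : 2 ≤ N) : CData ((N + 1) * (2 * N + 1)) where
  w := w N
  v := v N
  w_le := w_le N
  v_le := v_le N
  w_succ := w_succ N hN
  v_succ := v_succ N hN
  ww := ww N hN
  vv := vv N hN
  N := N
  c0 := 2 * N + 1
  c0_lt := by have := h_gt N hN; omega
  ht := ht N
  ht_rec := ht_rec N
  ht_zero := ht_zero N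
  ht_h := ht_h N
  ht_one := ht_one N hN
  ht_c0 := ht_c0 N
  ht_mono := ht_mono N
  S := S N
  finS := inferInstance
  decS := inferInstance
  pos := pos N
  pos_inj := pos_inj N hN
  pos_swap := pos_swap N hN
  pos_peak := pos_peak N hN
  pos_main := pos_main N hN
  pos_ww := pos_ww N hN
  pos_vv := pos_vv N
  pos_wv := pos_wv N hN

theorem card_S : Fintype.card (S N) = 2 * N * (N + 1) := by
  have h1 : Fintype.card (Σ j : Fin (N + 1), Fin j.val) * 2 = (N + 1) * N := by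
    rw [Fintype.card_sigma]
    simp only [Fintype.card_fin]
    rw [Fin.sum_univ_eq_sum_range (fun i => i), Finset.sum_range_id_mul_two, Nat.add_sub_cancel]
  rw [Fintype.card_sum, Fintype.card_sum, Fintype.card_prod, Fintype.card_fin, Fintype.card_fin]
  nlinarith

end Comb

open Comb in
/-- For every `N ≥ 2` there is a quasi-polarized Dieudonne module of rank `2 (N+1)(2N+1)` whose
unipotent group `U` is isogenous to `W_1^(2N(N+1)) × W_N^((N+1)(2N+1))`. -/
theorem exists_two_exponents (p : ℕ) [Fact p.Prime] (k : Type u) [Field k] [CharP k p] (N : ℕ)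
    (hN : 2 ≤ N) :
    ∃ D : DMod p k (ZMod ((N + 1) * (2 * N + 1)) ⊕ ZMod ((N + 1) * (2 * N + 1))),
      D.QuasiPolarized ∧
      Isogenous D (Sum.elim (fun _ : Fin (2 * N * (N + 1)) => 1)
        (fun _ : Fin ((N + 1) * (2 * N + 1)) => N)) := by
  let C := data N hN
  refine ⟨C.D p k, C.quasiPolarized, ?_⟩
  let e1 : Fin (2 * N * (N + 1)) ≃ C.S := (Fintype.equivFinOfCardEq (card_S N)).symm
  let e2 : Fin ((N + 1) * (2 * N + 1)) ≃ ZMod ((N + 1) * (2 * N + 1)) :=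
    (Fintype.equivFinOfCardEq (ZMod.card _)).symm
  have F := (C.isog (p := p) (k := k)).reindex (Equiv.sumCongr e1 e2)
  have h : (fun j' => C.n ((Equiv.sumCongr e1 e2) j')) =
      Sum.elim (fun _ : Fin (2 * N * (N + 1)) => 1)
        (fun _ : Fin ((N + 1) * (2 * N + 1)) => N) := by
    funext j
    rcases j with j | j <;> rfl
  rw [h] at F
  exact F

end Pool.Agent.Helper93.UBr
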