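import Mathlib

/-!
# Solving additive equations over Witt vectors

`p`-adic completeness of the Witt vectors and Lang's theorem `σ^m x - x = b`.
-/

open WittVector

namespace Pool.Agent.Helper93.UBr

universe u

section Complete

variable {p : ℕ} [Fact p.Prime] {R : Type u} [CommRing R] [CharP R p] [PerfectRing R p]

theorem p_pow_dvd_iff (x : WittVector p R) (n : ℕ) :
    (p : WittVector p R) ^ n ∣ x ↔ ∀ m, m < n → x.coeff m = 0 := by
  rw [← mem_span_p_pow_iff_le_coeff_eq_zero, Ideal.mem_span_singleton]

theorem p_dvd_iff (x : WittVector p R) : (p : WittVector p R) ∣ x ↔ x.coeff 0 = 0 := by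
  rw [← mem_span_p_iff_coeff_zero_eq_zero, Ideal.mem_span_singleton]

theorem p_mul_inj {x y : WittVector p R} (h : (p : WittVector p R) * x = p * y) : x = y := by
  rw [← sub_eq_zero]
  apply eq_zero_of_p_mul_eq_zero
  rw [mul_comm, mul_sub, h, sub_self]

theorem p_pow_mul_inj {x y : WittVector p R} (n : ℕ)
    (h : (p : WittVector p R) ^ n * x = (p : WittVector p R) ^ n * y) : x = y := by
  induction n with
  | zero => simpa using h
  | succ n ih =>
    apply ih
    apply p_mul_inj
    rw [← mul_assoc, ← pow_succ', h, pow_succ', mul_assoc]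

theorem eq_zero_of_forall_dvd (x : WittVector p R) (h : ∀ n, (p : WittVector p R) ^ n ∣ x) :
    x = 0 := by
  ext n
  rw [zero_coeff]
  exact (p_pow_dvd_iff x (n + 1)).1 (h (n + 1)) n (Nat.lt_succ_self n)

/-- Cauchy sequences converge. -/
theorem exists_limit (f : ℕ → WittVector p R)
    (hf : ∀ n, (p : WittVector p R) ^ n ∣ f (n + 1) - f n) :
    ∃ L, ∀ n, (p : WittVector p R) ^ n ∣ L - f n := by
  have h1 : ∀ m d, (p : WittVector p R) ^ m ∣ f (m + d) - f m := by
    intro m d
    induction d with
    | zero => simp
    | succ d ih =>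
      have : f (m + (d + 1)) - f m = (f (m + d + 1) - f (m + d)) + (f (m + d) - f m) := by
        rw [← add_assoc]; ring
      rw [this]
      exact dvd_add ((pow_dvd_pow _ (Nat.le_add_right m d)).trans (hf _)) ih
  obtain ⟨L, hL⟩ := (isAdicCompleteIdealSpanP (p := p) (k := R)).prec' f (by
    intro m n hmn
    obtain ⟨d, rfl⟩ := Nat.exists_eq_add_of_le hmn
    rw [SModEq.sub_mem]
    simp only [Ideal.span_singleton_pow, smul_eq_mul, Ideal.mul_top]
    rw [Ideal.mem_span_singleton, ← neg_sub, dvd_neg]
    exact h1 m d)
  refine ⟨L, fun n => ?_⟩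
  have := hL n
  rw [SModEq.sub_mem] at this
  simp only [Ideal.span_singleton_pow, smul_eq_mul, Ideal.mul_top] at this
  rw [Ideal.mem_span_singleton, ← neg_sub, dvd_neg] at this
  exact this

/-- An additive endomorphism of `I → W(R)` which is surjective modulo `p` is surjective. -/
theorem surjective_of_mod_p {I : Type*} (T : (I → WittVector p R) →+ (I → WittVector p R))
    (h : ∀ b, ∃ a c, b = T a + (p : ℕ) • c) : Function.Surjective T := by
  have key : ∀ (m : ℕ) (f : I → WittVector p R) (u : I),
      (m • f) u = (m : WittVector p R) * f u := fun m f u => by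
    rw [Pi.smul_apply, nsmul_eq_mul]
  intro b
  choose α γ hαγ using h
  -- c n
  let c : ℕ → (I → WittVector p R) := fun n => Nat.rec b (fun _ x => γ x) n
  have hc : ∀ n, c n = T (α (c n)) + (p : ℕ) • c (n + 1) := fun n => hαγ (c n)
  let S : ℕ → (I → WittVector p R) := fun n => ∑ i ∈ Finset.range n, (p ^ i : ℕ) • α (c i)
  have hS : ∀ n, S (n + 1) = S n + (p ^ n : ℕ) • α (c n) := fun n => Finset.sum_range_succ _ _
  have hb : ∀ n, b = T (S n) + (p ^ n : ℕ) • c n := by
    intro n
    induction n with
    | zero => simp [S, c]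
    | succ n ih =>
      rw [hS, map_add, map_nsmul, add_assoc, pow_succ, mul_smul (p ^ n) p (c (n + 1)), ← smul_add,
        ← hc n]
      exact ih
  have hlim : ∀ u, ∃ L, ∀ n, (p : WittVector p R) ^ n ∣ L - S n u := by
    intro u
    apply exists_limit
    intro n
    rw [hS, Pi.add_apply, add_sub_cancel_left, key, Nat.cast_pow]
    exact dvd_mul_right _ _
  choose A hA using hlim
  refine ⟨A, ?_⟩
  funext u
  rw [← sub_eq_zero]
  apply eq_zero_of_forall_dvd
  intro n
  choose D hD using fun u => hA u n
  have hAS : A = S n + (p ^ n : ℕ) • D := by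
    funext v
    rw [Pi.add_apply, key, Nat.cast_pow, ← hD v]
    ring
  have : T A u - b u = (p : WittVector p R) ^ n * (T D u - c n u) := by
    conv_lhs => rw [hAS, hb n]
    rw [map_add, map_nsmul, Pi.add_apply, Pi.add_apply, key, key, Nat.cast_pow]
    ring
  rw [this]
  exact dvd_mul_right _ _

end Complete

section Lang

variable {p : ℕ} [Fact p.Prime] {K : Type u} [Field K] [IsAlgClosed K] [CharP K p]
  [PerfectRing K p]

/-- Lang's theorem for Witt vectors over an algebraically closed field. -/
theorem exists_frobenius_pow_sub (m : ℕ) (hm : 1 ≤ m) (b : WittVector p K) :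
    ∃ x, ((frobeniusEquiv p K : RingAut (WittVector p K)) ^ m) x - x = b := by
  set s : RingAut (WittVector p K) := (frobeniusEquiv p K : RingAut (WittVector p K)) with hs
  have hcoeff : ∀ (m : ℕ) (x : WittVector p K), ((s ^ m) x).coeff 0 = x.coeff 0 ^ p ^ m := by
    intro m
    induction m with
    | zero => intro x; simp
    | succ m ih =>
      intro x
      rw [pow_succ, RingAut.mul_apply, ih]
      have : (s x).coeff 0 = x.coeff 0 ^ p := by
        rw [hs]
        exact coeff_frobenius_charP (p := p) (R := K) x 0
      rw [this, ← pow_mul, pow_succ, mul_comm]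
  let T : (Unit → WittVector p K) →+ (Unit → WittVector p K) :=
    { toFun := fun x u => (s ^ m) (x u) - x u
      map_zero' := by funext u; simp
      map_add' := by
        intro x y; funext u
        simp only [Pi.add_apply, map_add]
        ring }
  have hT : Function.Surjective T := by
    apply surjective_of_mod_p
    intro b
    -- a root of X^(p^m) - X - b₀
    obtain ⟨β, hβ⟩ : ∃ β : K, β ^ p ^ m - β = (b ()).coeff 0 := by
      have hp1 : 1 < p ^ m := Nat.one_lt_pow (by omega) (Fact.out : p.Prime).one_lt
      let P : Polynomial K := Polynomial.X ^ p ^ m - Polynomial.X - Polynomial.C ((b ()).coeff 0)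
      have hdeg : P.degree ≠ 0 := by
        have h1 : P.degree = (p ^ m : ℕ) := by
          have : P = Polynomial.X ^ p ^ m - (Polynomial.X + Polynomial.C ((b ()).coeff 0)) := by
            simp only [P]; ring
          rw [this, Polynomial.degree_sub_eq_left_of_degree_lt, Polynomial.degree_X_pow]
          rw [Polynomial.degree_X_pow, Polynomial.degree_X_add_C]
          exact_mod_cast hp1
        rw [h1]
        have : (p ^ m : ℕ) ≠ 0 := by omega
        exact_mod_cast this
      obtain ⟨β, hβ⟩ := IsAlgClosed.exists_root P hdeg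
      refine ⟨β, ?_⟩
      simp only [P, Polynomial.IsRoot, Polynomial.eval_sub, Polynomial.eval_pow,
        Polynomial.eval_X, Polynomial.eval_C] at hβ
      linear_combination hβ
    let a : Unit → WittVector p K := fun _ => teichmuller p β
    have h0 : (p : WittVector p K) ∣ b () - T a () := by
      rw [p_dvd_iff]
      have h2 : constantCoeff (b () - T a ()) = 0 := by
        rw [map_sub]
        have h3 : constantCoeff (T a ()) = β ^ p ^ m - β := by
          change constantCoeff ((s ^ m) (teichmuller p β) - teichmuller p β) = _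
          rw [map_sub]
          have h4 : constantCoeff ((s ^ m) (teichmuller p β)) = β ^ p ^ m := by
            change ((s ^ m) (teichmuller p β)).coeff 0 = _
            rw [hcoeff, teichmuller_coeff_zero]
          have h5 : constantCoeff (teichmuller p β) = β := teichmuller_coeff_zero p β
          rw [h4, h5]
        rw [h3, hβ]
        exact sub_self _
      exact h2
    obtain ⟨c, hc⟩ := h0
    refine ⟨a, fun _ => c, ?_⟩
    funext u
    rw [Pi.add_apply, Pi.smul_apply, nsmul_eq_mul]
    cases u
    rw [← hc, add_sub_cancel]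
  obtain ⟨x, hx⟩ := hT (fun _ => b)
  exact ⟨x (), congrFun hx ()⟩

/-- Lang's theorem, inverse form. -/
theorem exists_sub_inv_frobenius_pow (m : ℕ) (hm : 1 ≤ m) (b : WittVector p K) :
    ∃ x, x - (((frobeniusEquiv p K : RingAut (WittVector p K))⁻¹) ^ m) x = b := by
  obtain ⟨y, hy⟩ := exists_frobenius_pow_sub m hm b
  refine ⟨((frobeniusEquiv p K : RingAut (WittVector p K)) ^ m) y, ?_⟩
  have : (((frobeniusEquiv p K : RingAut (WittVector p K))⁻¹) ^ m)
      (((frobeniusEquiv p K : RingAut (WittVector p K)) ^ m) y) = y := by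
    rw [← RingAut.mul_apply, inv_pow, inv_mul_cancel, RingAut.one_apply]
  rw [this, hy]

end Lang

end Pool.Agent.Helper93.UBr
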