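import Pool.Agent.Helper93.UBr.Mono

/-!
# Monomial Dieudonne modules
-/

open WittVector

namespace Pool.Agent.Helper93.UBr

universe u

section MonoDef

variable (p : ℕ) [Fact p.Prime] (k : Type u) [Field k]
variable {ι : Type} [Fintype ι] [DecidableEq ι]

/-- The monomial Dieudonne module with `F e_b = p^(e b) e_(π b)`. -/
noncomputable def mono (π : Equiv.Perm ι) (e : ι → ℕ) (he : ∀ i, e i ≤ 1) : DMod p k ι where
  X := Matrix.of fun a b => if a = π b then (p : WittVector p k) ^ e b else 0
  Y := Matrix.of fun a b => if b = π a then (p : WittVector p k) ^ (1 - e a) else 0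
  X_mul_Y := by
    ext1 a c
    rw [Matrix.mul_apply, Finset.sum_eq_single (π.symm a)]
    · simp only [Matrix.of_apply, Equiv.apply_symm_apply, if_true, Matrix.smul_apply,
        Matrix.one_apply, smul_eq_mul]
      by_cases h : a = c
      · subst h
        rw [if_pos rfl, if_pos rfl, ← pow_add, mul_one]
        have h1 : e (π.symm a) + (1 - e (π.symm a)) = 1 := by have := he (π.symm a); omega
        rw [h1, pow_one]
      · rw [if_neg (fun h' => h h'.symm), if_neg h]; simp
    · intro b _ hb
      simp only [Matrix.of_apply]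
      rw [if_neg (fun h => hb (by rw [h, Equiv.symm_apply_apply])), zero_mul]
    · intro h; exact absurd (Finset.mem_univ _) h
  Y_mul_X := by
    ext1 a c
    rw [Matrix.mul_apply, Finset.sum_eq_single (π a)]
    · simp only [Matrix.of_apply, if_true, Matrix.smul_apply, Matrix.one_apply, smul_eq_mul]
      by_cases h : a = c
      · subst h
        rw [if_pos rfl, if_pos rfl, ← pow_add, mul_one]
        have h1 : 1 - e a + e a = 1 := by have := he a; omega
        rw [h1, pow_one]
      · rw [if_neg (fun h' => h (π.injective h')), if_neg h]; simp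
    · intro b _ hb
      simp only [Matrix.of_apply]
      rw [if_neg hb, zero_mul]
    · intro h; exact absurd (Finset.mem_univ _) h

variable {p k}
variable (π : Equiv.Perm ι) (e : ι → ℕ) (he : ∀ i, e i ≤ 1)

theorem mono_XR (R : Type u) [CommRing R] [Algebra k R] (a b : ι) :
    (mono p k π e he).XR R a b = if a = π b then (p : WittVector p R) ^ e b else 0 := by
  simp only [DMod.XR, mono, Matrix.map_apply, Matrix.of_apply]
  split_ifs <;> simp

theorem mono_FH (R : Type u) [CommRing R] [Algebra k R] (A : (mono p k π e he).H R) (b b' : ι) :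
    ((mono p k π e he).FH R A).mat (π b) (π b') =
      (p : WittVector p R) ^ (e b + e b') * frobenius (A.mat b b') := by
  rw [DMod.FH_mat, Matrix.mul_apply, Finset.sum_eq_single b']
  · rw [Matrix.mul_apply, Finset.sum_eq_single b]
    · rw [Matrix.transpose_apply, mono_XR, mono_XR, if_pos rfl, if_pos rfl, Matrix.map_apply,
        pow_add]
      ring
    · intro c _ hc
      rw [mono_XR, if_neg (fun h => hc (π.injective h).symm), zero_mul]
    · intro h; exact absurd (Finset.mem_univ _) h
  · intro c _ hc
    rw [Matrix.transpose_apply, mono_XR, if_neg (fun h => hc (π.injective h).symm), mul_zero]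
  · intro h; exact absurd (Finset.mem_univ _) h

theorem mono_mem_image (R : Type u) [CommRing R] [Algebra k R] [CharP R p] [PerfectRing R p]
    (A : (mono p k π e he).H R) :
    A ∈ (mono p k π e he).image R ↔
    ∃ x y : (mono p k π e he).H R,
      (∀ b b', (p : WittVector p R) * y.mat (π b) (π b') =
        (p : WittVector p R) ^ (e b + e b') * frobenius (x.mat b b')) ∧
      ∀ i j, A.mat i j = y.mat i j - x.mat i j := by
  constructor
  · rintro ⟨x, rfl⟩
    refine ⟨x.1, (mono p k π e he).FdivP R x, fun b b' => ?_, fun i j => rfl⟩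
    rw [← mono_FH, ← DMod.p_smul_FdivP]
    change _ = p • (((mono p k π e he).FdivP R x).mat (π b) (π b'))
    rw [nsmul_eq_mul]
  · rintro ⟨x, y, h1, h2⟩
    have hFy : (mono p k π e he).FH R x = p • y := by
      apply DMod.H.ext
      intro i j
      obtain ⟨b, rfl⟩ := π.surjective i
      obtain ⟨b', rfl⟩ := π.surjective j
      rw [mono_FH, ← h1]
      change _ = p • (y.mat (π b) (π b'))
      rw [nsmul_eq_mul]
    refine ⟨⟨x, y, hFy⟩, ?_⟩
    have h3 : (mono p k π e he).FdivP R ⟨x, y, hFy⟩ = y := by
      apply (mono p k π e he).smul_p_inj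
      rw [DMod.p_smul_FdivP, hFy]
    apply DMod.H.ext
    intro i j
    rw [h2 i j, DMod.H.mat_sub, Matrix.sub_apply, h3]

end MonoDef

end Pool.Agent.Helper93.UBr
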