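import Pool.Agent.Helper93.UBr.Cyc

/-!
# Two cyclic words: the main computation
-/

open WittVector

namespace Pool.Agent.Helper93.UBr

universe u

/-- Combinatorial data: two cyclic words `w`, `v` of length `h`, heights `ht s l` of the mixed
orbits, a set `S` of peaks. -/
structure CData (h : ℕ) [NeZero h] where
  w : ZMod h → ℕ
  v : ZMod h → ℕ
  w_le : ∀ i, w i ≤ 1
  v_le : ∀ i, v i ≤ 1
  w_succ : ∀ i, w i = 1 → w (i + 1) = 0
  v_succ : ∀ i, v i = 0 → v (i + 1) = 1
  ww : ∀ s, ∃ l, w l = 0 ∧ w (l + s) = 0 ∧ ¬ (w (l - 1) = 1 ∧ w (l - 1 + s) = 1)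
  vv : ∀ s, ∃ l, v (l - 1) = 1 ∧ v (l - 1 + s) = 1 ∧ ¬ (v l = 0 ∧ v (l + s) = 0)
  N : ℕ
  c0 : ℕ
  c0_lt : c0 < h
  ht : ZMod h → ℕ → ℕ
  ht_rec : ∀ s, ∀ l < h, ht s (l + 1) + (w l + v (l + s)) = ht s l + 1
  ht_zero : ∀ s, ht s 0 = N
  ht_h : ∀ s, ht s h = N
  ht_one : ∀ s, ht s 1 ≤ N
  ht_c0 : ∀ s, ht s c0 = 0
  ht_mono : ∀ s, ∀ l, c0 ≤ l → l < h → ht s l ≤ ht s (l + 1)
  S : Type
  finS : Fintype S
  decS : DecidableEq S
  pos : S → (ZMod h ⊕ ZMod h) × (ZMod h ⊕ ZMod h)
  pos_inj : Function.Injective pos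
  pos_swap : ∀ s t, pos s ≠ (pos t).swap
  pos_peak : ∀ s, ∃ b b' : ZMod h ⊕ ZMod h, pos s = (Sum.map (· + 1) (· + 1) b, Sum.map (· + 1) (· + 1) b') ∧
    Sum.elim w v b = 1 ∧ Sum.elim w v b' = 1 ∧ Sum.elim w v (pos s).1 = 0 ∧
    Sum.elim w v (pos s).2 = 0
  pos_main : ∀ s j, pos s ≠ (Sum.inl (c0 : ZMod h), Sum.inr j) ∧
    pos s ≠ (Sum.inr j, Sum.inl (c0 : ZMod h))
  pos_ww : ∀ i j, i ≠ j → w (i - 1) = 1 → w (j - 1) = 1 →
    ∃ s, pos s = (Sum.inl i, Sum.inl j) ∨ pos s = (Sum.inl j, Sum.inl i)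
  pos_vv : ∀ i j, i ≠ j → v i = 0 → v j = 0 →
    ∃ s, pos s = (Sum.inr i, Sum.inr j) ∨ pos s = (Sum.inr j, Sum.inr i)
  pos_wv : ∀ s, ∀ m, m + 1 < c0 → ht s (m + 2) ≤ ht s (m + 1) ∨
    (ht s (m + 2) ≤ ht s (m + 1) + 1 ∧ ht s (m + 1) + 1 ≤ ht s m ∧
      ∃ t, pos t = (Sum.inl ((m + 1 : ℕ) : ZMod h), Sum.inr (((m + 1 : ℕ) : ZMod h) + s)))

namespace CData

variable {h : ℕ} [NeZero h] (C : CData h)

instance : Fintype C.S := C.finS
instance : DecidableEq C.S := C.decS

/-- the weights of the basis vectors -/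
def e : ZMod h ⊕ ZMod h → ℕ := Sum.elim C.w C.v

theorem e_le (i) : C.e i ≤ 1 := by
  cases i with
  | inl i => exact C.w_le i
  | inr i => exact C.v_le i

/-- the cyclic shift -/
def sh (h : ℕ) : Equiv.Perm (ZMod h ⊕ ZMod h) :=
  Equiv.sumCongr (Equiv.addRight 1) (Equiv.addRight 1)

@[simp] theorem sh_inl (h : ℕ) (i : ZMod h) : sh h (Sum.inl i) = Sum.inl (i + 1) := rfl
@[simp] theorem sh_inr (h : ℕ) (i : ZMod h) : sh h (Sum.inr i) = Sum.inr (i + 1) := rfl

variable (p : ℕ) [Fact p.Prime] (k : Type u) [Field k]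

/-- the Dieudonne module attached to the data -/
noncomputable def D : DMod p k (ZMod h ⊕ ZMod h) := mono p k (sh h) C.e C.e_le

section Functional

variable {p k}
variable (R : Type u) [CommRing R] [Algebra k R] [CharP R p] [PerfectRing R p]

theorem D_mem_image (A : (C.D p k).H R) :
    A ∈ (C.D p k).image R ↔ ∃ x y : (C.D p k).H R,
      (∀ b b', (p : WittVector p R) * y.mat (sh h b) (sh h b') =
        (p : WittVector p R) ^ (C.e b + C.e b') * frobenius (x.mat b b')) ∧
      ∀ i j, A.mat i j = y.mat i j - x.mat i j :=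
  mono_mem_image (sh h) C.e C.e_le R A

/-- the inverse Frobenius -/
noncomputable def ti (p : ℕ) [Fact p.Prime] (R : Type u) [CommRing R] [CharP R p]
    [PerfectRing R p] : RingAut (WittVector p R) :=
  (frobeniusEquiv p R : RingAut (WittVector p R))⁻¹

/-- the functionals -/
noncomputable def f : (C.D p k).H R →+ (C.S ⊕ ZMod h → WittVector p R) where
  toFun A := Sum.elim (fun s => A.mat (C.pos s).1 (C.pos s).2)
    (fun s => ∑ l ∈ Finset.range h, (p : WittVector p R) ^ C.ht s l *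
      ((ti p R) ^ l) (A.mat (Sum.inl (l : ZMod h)) (Sum.inr ((l : ZMod h) + s))))
  map_zero' := by
    funext j
    rcases j with s | s
    · rfl
    · change (∑ l ∈ Finset.range h, (p : WittVector p R) ^ C.ht s l * ((ti p R) ^ l) 0) = 0
      simp
  map_add' A B := by
    funext j
    rcases j with s | s
    · rfl
    · change (∑ l ∈ Finset.range h, (p : WittVector p R) ^ C.ht s l *
        ((ti p R) ^ l) (A.mat (Sum.inl (l : ZMod h)) (Sum.inr ((l : ZMod h) + s)) +
          B.mat (Sum.inl (l : ZMod h)) (Sum.inr ((l : ZMod h) + s)))) =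
        (∑ l ∈ Finset.range h, (p : WittVector p R) ^ C.ht s l *
          ((ti p R) ^ l) (A.mat (Sum.inl (l : ZMod h)) (Sum.inr ((l : ZMod h) + s)))) +
        (∑ l ∈ Finset.range h, (p : WittVector p R) ^ C.ht s l *
          ((ti p R) ^ l) (B.mat (Sum.inl (l : ZMod h)) (Sum.inr ((l : ZMod h) + s))))
      rw [← Finset.sum_add_distrib]
      refine Finset.sum_congr rfl fun l _ => ?_
      rw [map_add, mul_add]

/-- the exponents -/
def n : C.S ⊕ ZMod h → ℕ := Sum.elim (fun _ => 1) (fun _ => C.N)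

theorem sigma_ti (x : WittVector p R) (l : ℕ) :
    ((ti p R) ^ (l + 1)) (frobenius x) = ((ti p R) ^ l) x := by
  have h1 : frobenius x = (frobeniusEquiv p R : RingAut (WittVector p R)) x := rfl
  rw [h1, ← RingAut.mul_apply, ti, pow_succ, mul_assoc, inv_mul_cancel, mul_one]

theorem wd (A : (C.D p k).H R)
    (hA : A ∈ (C.D p k).image R) (j : C.S ⊕ ZMod h) :
    (p : WittVector p R) ^ C.n j ∣ C.f R A j := by
  rw [D_mem_image] at hA
  obtain ⟨x, y, h1, h2⟩ := hA
  rcases j with s | s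
  · change (p : WittVector p R) ^ 1 ∣ A.mat (C.pos s).1 (C.pos s).2
    rw [pow_one]
    obtain ⟨b, b', hpos, hb, hb', hb1, hb1'⟩ := C.pos_peak s
    have e1 : (C.pos s).1 = sh h b := by rw [hpos]; cases b <;> rfl
    have e2 : (C.pos s).2 = sh h b' := by rw [hpos]; cases b' <;> rfl
    rw [h2]
    apply dvd_sub
    · rw [e1, e2]
      have h3 := h1 b b'
      change _ = (p : WittVector p R) ^ (Sum.elim C.w C.v b + Sum.elim C.w C.v b') * _ at h3
      rw [hb, hb', pow_succ, pow_one, mul_assoc] at h3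
      rw [p_mul_inj h3]
      exact dvd_mul_right _ _
    · have h3 := h1 (C.pos s).1 (C.pos s).2
      change _ = (p : WittVector p R) ^ (Sum.elim C.w C.v _ + Sum.elim C.w C.v _) * _ at h3
      rw [hb1, hb1', pow_zero, one_mul] at h3
      have h4 : (p : WittVector p R) ∣ frobenius (x.mat (C.pos s).1 (C.pos s).2) := by
        rw [← h3]; exact dvd_mul_right _ _
      obtain ⟨z, hz⟩ := h4
      have h5 : x.mat (C.pos s).1 (C.pos s).2 = (frobeniusEquiv p R).symm
          (frobenius (x.mat (C.pos s).1 (C.pos s).2)) := by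
        exact ((frobeniusEquiv p R).symm_apply_apply _).symm
      rw [h5, hz, map_mul, map_natCast]
      exact dvd_mul_right _ _
  · change (p : WittVector p R) ^ C.N ∣ ∑ l ∈ Finset.range h, (p : WittVector p R) ^ C.ht s l *
      ((ti p R) ^ l) (A.mat (Sum.inl (l : ZMod h)) (Sum.inr ((l : ZMod h) + s)))
    -- key identity
    have key : ∀ l : ℕ, l < h → (p : WittVector p R) ^ C.ht s (l + 1) * ((ti p R) ^ (l + 1))
        (y.mat (Sum.inl ((l + 1 : ℕ) : ZMod h)) (Sum.inr (((l + 1 : ℕ) : ZMod h) + s))) =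
        (p : WittVector p R) ^ C.ht s l * ((ti p R) ^ l)
        (x.mat (Sum.inl (l : ZMod h)) (Sum.inr ((l : ZMod h) + s))) := by
      intro l hl
      apply p_mul_inj
      have h3 := h1 (Sum.inl (l : ZMod h)) (Sum.inr ((l : ZMod h) + s))
      rw [sh_inl, sh_inr] at h3
      change _ = (p : WittVector p R) ^ (C.w l + C.v (l + s)) * _ at h3
      have e1 : ((l + 1 : ℕ) : ZMod h) = (l : ZMod h) + 1 := by push_cast; ring
      have e2 : ((l + 1 : ℕ) : ZMod h) + s = (l : ZMod h) + s + 1 := by push_cast; ring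
      rw [e2, e1]
      have h4 := congrArg ((ti p R) ^ (l + 1)) h3
      rw [map_mul, map_mul, map_natCast, map_p_pow, sigma_ti] at h4
      have h5 := C.ht_rec s l hl
      calc (p : WittVector p R) * ((p : WittVector p R) ^ C.ht s (l + 1) * ((ti p R) ^ (l + 1))
            (y.mat (Sum.inl ((l : ZMod h) + 1)) (Sum.inr ((l : ZMod h) + s + 1))))
          = (p : WittVector p R) ^ C.ht s (l + 1) * ((p : WittVector p R) * ((ti p R) ^ (l + 1))
            (y.mat (Sum.inl ((l : ZMod h) + 1)) (Sum.inr ((l : ZMod h) + s + 1)))) := by ring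
        _ = (p : WittVector p R) ^ (C.ht s (l + 1) + (C.w l + C.v (l + s))) * ((ti p R) ^ l)
            (x.mat (Sum.inl (l : ZMod h)) (Sum.inr ((l : ZMod h) + s))) := by
            rw [h4, pow_add _ (C.ht s (l + 1))]; ring
        _ = _ := by rw [h5, pow_succ]; ring
    -- telescoping
    have tel : ∀ m : ℕ, m ≤ h → (∑ l ∈ Finset.range m, (p : WittVector p R) ^ C.ht s l *
        ((ti p R) ^ l) (A.mat (Sum.inl (l : ZMod h)) (Sum.inr ((l : ZMod h) + s)))) =
        (p : WittVector p R) ^ C.N * y.mat (Sum.inl 0) (Sum.inr s) -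
        (p : WittVector p R) ^ C.ht s m * ((ti p R) ^ m)
        (y.mat (Sum.inl (m : ZMod h)) (Sum.inr ((m : ZMod h) + s))) := by
      intro m
      induction m with
      | zero =>
        intro _
        rw [Finset.sum_range_zero, C.ht_zero, pow_zero, RingAut.one_apply, Nat.cast_zero, zero_add,
          sub_self]
      | succ m ih =>
        intro hm
        rw [Finset.sum_range_succ, ih (by omega), h2, map_sub, key m (by omega)]
        ring
    rw [tel h le_rfl, C.ht_h]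
    exact dvd_sub (dvd_mul_right _ _) (dvd_mul_right _ _)

end Functional

end CData

end Pool.Agent.Helper93.UBr
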