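import Mathlib

/-!
# Unipotent Brauer groups of Dieudonne modules: definitions

`k` is a field of characteristic `p` (algebraically closed in the results), `W = WittVector p k` and
`σ` is the Frobenius of `W`.
-/

open WittVector

namespace Pool.Agent.Helper93.UBr

universe u

/-- A Dieudonne module over the field `k` of characteristic `p`, free over `W(k)` with basis indexed
by `ι`. `X` is the matrix of the Frobenius, `F(x) = X σ(x)`, and the Verschiebung is
`V(x) = σ⁻¹(Y x)`, so that `F V = V F = p` reads `X Y = Y X = p`. -/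
structure DMod (p : ℕ) [Fact p.Prime] (k : Type u) [Field k] (ι : Type) [Fintype ι]
    [DecidableEq ι] where
  /-- the matrix of `F` -/
  X : Matrix ι ι (WittVector p k)
  /-- the matrix of `V` -/
  Y : Matrix ι ι (WittVector p k)
  X_mul_Y : X * Y = (p : WittVector p k) • (1 : Matrix ι ι (WittVector p k))
  Y_mul_X : Y * X = (p : WittVector p k) • (1 : Matrix ι ι (WittVector p k))

/-- `M` is an alternating matrix. -/
def IsAlt {ι : Type} {A : Type u} [CommRing A] (M : Matrix ι ι A) : Prop :=
  (∀ i j, M j i = - M i j) ∧ ∀ i, M i i = 0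

theorem isAlt_zero {ι : Type} {A : Type u} [CommRing A] : IsAlt (0 : Matrix ι ι A) := by
  refine ⟨fun i j => ?_, fun i => ?_⟩ <;> simp

theorem isAlt_add {ι : Type} {A : Type u} [CommRing A] {M N : Matrix ι ι A} (hM : IsAlt M)
    (hN : IsAlt N) : IsAlt (M + N) := by
  obtain ⟨h1, h2⟩ := hM
  obtain ⟨h3, h4⟩ := hN
  refine ⟨fun i j => ?_, fun i => ?_⟩
  · rw [Matrix.add_apply, Matrix.add_apply, h1 i j, h3 i j]; ring
  · rw [Matrix.add_apply, h2, h4, add_zero]

theorem isAlt_neg {ι : Type} {A : Type u} [CommRing A] {M : Matrix ι ι A} (hM : IsAlt M) :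
    IsAlt (-M) := by
  obtain ⟨h1, h2⟩ := hM
  refine ⟨fun i j => ?_, fun i => ?_⟩
  · rw [Matrix.neg_apply, Matrix.neg_apply, h1 i j]
  · rw [Matrix.neg_apply, h2, neg_zero]

/-- The exterior square of the free module `A^ι`, realised as the group of alternating matrices:
`a ∧ b` is the matrix `a bᵀ - b aᵀ`. -/
def ExtSq (ι : Type) (A : Type u) [CommRing A] : AddSubgroup (Matrix ι ι A) where
  carrier := {M | IsAlt M}
  zero_mem' := isAlt_zero
  add_mem' := isAlt_add
  neg_mem' := isAlt_neg

theorem extSq_conj {ι : Type} [Fintype ι] {A : Type u} [CommRing A] (X M : Matrix ι ι A)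
    (hM : M ∈ ExtSq ι A) : X * M * X.transpose ∈ ExtSq ι A := by
  obtain ⟨h1, h2⟩ := hM
  have key : ∀ i j, (X * M * X.transpose) i j = ∑ a, ∑ b, X i a * M a b * X j b := by
    intro i j
    rw [Matrix.mul_apply]
    simp_rw [Matrix.mul_apply, Matrix.transpose_apply, Finset.sum_mul]
    rw [Finset.sum_comm]
  refine ⟨fun i j => ?_, fun i => ?_⟩
  · rw [key, key, Finset.sum_comm, ← Finset.sum_neg_distrib]
    refine Finset.sum_congr rfl fun a _ => ?_
    rw [← Finset.sum_neg_distrib]
    refine Finset.sum_congr rfl fun b _ => ?_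
    rw [h1 a b]; ring
  · rw [key]
    rw [← Finset.sum_product']
    refine Finset.sum_involution (fun x _ => (x.2, x.1)) ?_ ?_ ?_ ?_
    · rintro ⟨a, b⟩ _
      simp only
      rw [h1 a b]; ring
    · rintro ⟨a, b⟩ _ hne heq
      simp only [Prod.mk.injEq] at heq
      apply hne
      simp only
      rw [heq.1, h2]; ring
    · rintro ⟨a, b⟩ _; simp
    · rintro ⟨a, b⟩ _; rfl

namespace DMod

variable {p : ℕ} [Fact p.Prime] {k : Type u} [Field k] {ι : Type} [Fintype ι] [DecidableEq ι]

/-- `D` is quasi-polarized: there is an alternating bilinear form `J` on `D`, non-degenerate after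
inverting `p`, with `⟨F x, F y⟩ = p σ(⟨x, y⟩)`. -/
def QuasiPolarized (D : DMod p k ι) : Prop :=
  ∃ J : Matrix ι ι (WittVector p k), J ∈ ExtSq ι (WittVector p k) ∧ J.det ≠ 0 ∧
    D.X.transpose * J * D.X = (p : WittVector p k) • J.map frobenius

/-- `H(R)`, the exterior square of the base change of `D` to `W(R)`; so `H` is the crystal `∧² D`
regarded as a group functor. -/
def H (_D : DMod p k ι) (R : Type u) [CommRing R] : Type u := ExtSq ι (WittVector p R)

noncomputable instance instH (D : DMod p k ι) (R : Type u) [CommRing R] : AddCommGroup (D.H R) :=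
  (ExtSq ι (WittVector p R)).toAddCommGroup

/-- The alternating matrix underlying an element of `H(R)`. -/
def H.mat {D : DMod p k ι} {R : Type u} [CommRing R] (A : D.H R) : Matrix ι ι (WittVector p R) :=
  A.1

theorem H.ext {D : DMod p k ι} {R : Type u} [CommRing R] {A B : D.H R}
    (h : ∀ i j, A.mat i j = B.mat i j) : A = B :=
  Subtype.ext (Matrix.ext h)

theorem H.anti {D : DMod p k ι} {R : Type u} [CommRing R] (A : D.H R) (i j : ι) :
    A.mat j i = - A.mat i j := A.2.1 i j

theorem H.diag {D : DMod p k ι} {R : Type u} [CommRing R] (A : D.H R) (i : ι) :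
    A.mat i i = 0 := A.2.2 i

@[simp] theorem H.mat_zero {D : DMod p k ι} {R : Type u} [CommRing R] :
    (0 : D.H R).mat = 0 := rfl

@[simp] theorem H.mat_add {D : DMod p k ι} {R : Type u} [CommRing R] (A B : D.H R) :
    (A + B).mat = A.mat + B.mat := rfl

@[simp] theorem H.mat_sub {D : DMod p k ι} {R : Type u} [CommRing R] (A B : D.H R) :
    (A - B).mat = A.mat - B.mat := rfl

/-- The matrix of the Frobenius on the base change of `D` to `W(R)`. -/
noncomputable def XR (D : DMod p k ι) (R : Type u) [CommRing R] [Algebra k R] :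
    Matrix ι ι (WittVector p R) :=
  D.X.map (WittVector.map (algebraMap k R))

/-- The matrix `X σ(A) Xᵀ`. -/
noncomputable def FMat (D : DMod p k ι) (R : Type u) [CommRing R] [Algebra k R]
    (A : Matrix ι ι (WittVector p R)) : Matrix ι ι (WittVector p R) :=
  D.XR R * A.map frobenius * (D.XR R).transpose

theorem FMat_mem (D : DMod p k ι) (R : Type u) [CommRing R] [Algebra k R] (A : D.H R) :
    D.FMat R A.mat ∈ ExtSq ι (WittVector p R) := by
  apply extSq_conj
  refine ⟨fun i j => ?_, fun i => ?_⟩
  · rw [Matrix.map_apply, Matrix.map_apply, A.anti i j, map_neg]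
  · rw [Matrix.map_apply, A.diag, map_zero]

/-- The Frobenius of `H(R)`: the additive map with `F(a ∧ b) = F(a) ∧ F(b)`; on alternating
matrices it is `A ↦ X σ(A) Xᵀ`. -/
noncomputable def FH (D : DMod p k ι) (R : Type u) [CommRing R] [Algebra k R] (A : D.H R) :
    D.H R :=
  ⟨D.FMat R A.mat, D.FMat_mem R A⟩

theorem FH_mat (D : DMod p k ι) (R : Type u) [CommRing R] [Algebra k R] (A : D.H R) :
    (D.FH R A).mat = D.XR R * A.mat.map frobenius * (D.XR R).transpose := rfl

theorem FH_zero (D : DMod p k ι) (R : Type u) [CommRing R] [Algebra k R] : D.FH R 0 = 0 := by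
  apply H.ext
  intro i j
  rw [FH_mat, H.mat_zero, Matrix.map_zero _ (map_zero _), Matrix.mul_zero, Matrix.zero_mul]

theorem FH_add (D : DMod p k ι) (R : Type u) [CommRing R] [Algebra k R] (A B : D.H R) :
    D.FH R (A + B) = D.FH R A + D.FH R B := by
  apply H.ext
  intro i j
  rw [FH_mat, H.mat_add, H.mat_add, FH_mat, FH_mat,
    Matrix.map_add _ (map_add (frobenius : WittVector p R →+* _)), Matrix.mul_add, Matrix.add_mul]

theorem FH_neg (D : DMod p k ι) (R : Type u) [CommRing R] [Algebra k R] (A : D.H R) :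
    D.FH R (-A) = - D.FH R A := by
  rw [eq_neg_iff_add_eq_zero, ← FH_add, neg_add_cancel, FH_zero]

/-- `F(x)` is divisible by `p`. -/
def FDivisible (D : DMod p k ι) (R : Type u) [CommRing R] [Algebra k R] (x : D.H R) : Prop :=
  ∃ y : D.H R, D.FH R x = p • y

theorem fDivisible_zero (D : DMod p k ι) (R : Type u) [CommRing R] [Algebra k R] :
    D.FDivisible R 0 := ⟨0, by rw [FH_zero, smul_zero]⟩

theorem fDivisible_add (D : DMod p k ι) (R : Type u) [CommRing R] [Algebra k R] {x y : D.H R}
    (hx : D.FDivisible R x) (hy : D.FDivisible R y) : D.FDivisible R (x + y) := by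
  obtain ⟨z, hz⟩ := hx
  obtain ⟨z', hz'⟩ := hy
  exact ⟨z + z', by rw [FH_add, hz, hz', smul_add]⟩

theorem fDivisible_neg (D : DMod p k ι) (R : Type u) [CommRing R] [Algebra k R] {x : D.H R}
    (hx : D.FDivisible R x) : D.FDivisible R (-x) := by
  obtain ⟨z, hz⟩ := hx
  exact ⟨-z, by rw [FH_neg, hz, smul_neg]⟩

/-- `F¹_N H`, the subgroup of those `x` in `H` for which `p` divides `F x`. -/
noncomputable def FN (D : DMod p k ι) (R : Type u) [CommRing R] [Algebra k R] :
    AddSubgroup (D.H R) where
  carrier := {x | D.FDivisible R x}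
  zero_mem' := D.fDivisible_zero R
  add_mem' := D.fDivisible_add R
  neg_mem' := D.fDivisible_neg R

theorem smul_p_inj (D : DMod p k ι) {R : Type u} [CommRing R] [CharP R p] [PerfectRing R p]
    {x y : D.H R} (h : p • x = p • y) : x = y := by
  rw [← sub_eq_zero] at h ⊢
  rw [← smul_sub] at h
  apply H.ext
  intro i j
  have h1 := congrArg (fun z : D.H R => z.mat i j) h
  change p • ((x - y).mat i j) = 0 at h1
  apply eq_zero_of_p_mul_eq_zero
  rw [mul_comm, ← h1, nsmul_eq_mul]

/-- The map `F/p : F¹_N H → H`: `p` times the value at `x` is `F x`, and `H(R)` has no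
`p`-torsion for `R` perfect. -/
noncomputable def FdivP (D : DMod p k ι) (R : Type u) [CommRing R] [Algebra k R]
    (x : D.FN R) : D.H R :=
  Classical.choose x.2

theorem p_smul_FdivP (D : DMod p k ι) {R : Type u} [CommRing R] [Algebra k R] (x : D.FN R) :
    p • D.FdivP R x = D.FH R x.1 :=
  (Classical.choose_spec x.2).symm

/-- `z` is of the form `(F/p)(x) - x` for an `x` in `F¹_N H(R)`. -/
def InImage (D : DMod p k ι) (R : Type u) [CommRing R] [Algebra k R] (z : D.H R) : Prop :=
  ∃ x : D.FN R, z = D.FdivP R x - x.1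

theorem inImage_zero (D : DMod p k ι) (R : Type u) [CommRing R] [Algebra k R] [CharP R p]
    [PerfectRing R p] : D.InImage R 0 := by
  refine ⟨0, ?_⟩
  have h : D.FdivP R 0 = 0 := by
    apply D.smul_p_inj
    rw [p_smul_FdivP, smul_zero]
    exact D.FH_zero R
  rw [h]
  exact (sub_self _).symm

theorem inImage_add (D : DMod p k ι) (R : Type u) [CommRing R] [Algebra k R] [CharP R p]
    [PerfectRing R p] {x y : D.H R} (hx : D.InImage R x) (hy : D.InImage R y) :
    D.InImage R (x + y) := by
  obtain ⟨x, rfl⟩ := hx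
  obtain ⟨y, rfl⟩ := hy
  refine ⟨x + y, ?_⟩
  have h : D.FdivP R (x + y) = D.FdivP R x + D.FdivP R y := by
    apply D.smul_p_inj
    rw [p_smul_FdivP, smul_add, p_smul_FdivP, p_smul_FdivP]
    exact D.FH_add R _ _
  rw [h, AddSubgroup.coe_add]
  abel

theorem inImage_neg (D : DMod p k ι) (R : Type u) [CommRing R] [Algebra k R] [CharP R p]
    [PerfectRing R p] {x : D.H R} (hx : D.InImage R x) : D.InImage R (-x) := by
  obtain ⟨x, rfl⟩ := hx
  refine ⟨-x, ?_⟩
  have h : D.FdivP R (-x) = - D.FdivP R x := by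
    apply D.smul_p_inj
    rw [p_smul_FdivP, smul_neg, p_smul_FdivP]
    exact D.FH_neg R _
  rw [h, AddSubgroup.coe_neg]
  abel

/-- The image of `F/p - 1 : F¹_N H → H` on `R`-points. -/
def image (D : DMod p k ι) (R : Type u) [CommRing R] [Algebra k R] [CharP R p]
    [PerfectRing R p] : AddSubgroup (D.H R) where
  carrier := {z | D.InImage R z}
  zero_mem' := D.inImage_zero R
  add_mem' := D.inImage_add R
  neg_mem' := D.inImage_neg R

/-- `U(R)`, the cokernel of `F/p - 1 : F¹_N H → H` on `R`-points. -/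
def U (D : DMod p k ι) (R : Type u) [CommRing R] [Algebra k R] [CharP R p]
    [PerfectRing R p] : Type u :=
  D.H R ⧸ D.image R

noncomputable instance instU (D : DMod p k ι) (R : Type u) [CommRing R] [Algebra k R] [CharP R p]
    [PerfectRing R p] : AddCommGroup (D.U R) :=
  QuotientAddGroup.Quotient.addCommGroup (D.image R)

/-- The projection `H(R) → U(R)`. -/
noncomputable def toU (D : DMod p k ι) (R : Type u) [CommRing R] [Algebra k R] [CharP R p]
    [PerfectRing R p] : D.H R →+ D.U R :=
  QuotientAddGroup.mk' (D.image R)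

end DMod

/-- The product of the groups `W_(n j)(R)` of truncated Witt vectors. -/
def WProd (p : ℕ) {J : Type} (n : J → ℕ) (R : Type u) : Type u :=
  (j : J) → TruncatedWittVector p (n j) R

noncomputable instance instW (p : ℕ) [Fact p.Prime] {J : Type} (n : J → ℕ) (R : Type u)
    [CommRing R] : AddCommGroup (WProd p n R) :=
  Pi.addCommGroup

section Functoriality

variable {p : ℕ} [Fact p.Prime] {k : Type u} [Field k] {ι : Type} [Fintype ι] [DecidableEq ι]

/-- `A'` is the image of `A` under the map `H(R) → H(R')` induced by `φ : R → R'`. -/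
def HMaps {D : DMod p k ι} {R R' : Type u} [CommRing R] [CommRing R'] (φ : R →+* R') (A : D.H R)
    (A' : D.H R') : Prop :=
  ∀ i j, A'.mat i j = WittVector.map φ (A.mat i j)

/-- `x'` is the image of `x` under the map `∏ W_(n j)(R) → ∏ W_(n j)(R')` induced by
`φ : R → R'`. -/
def WMaps {J : Type} {n : J → ℕ} {R R' : Type u} [CommRing R] [CommRing R'] (φ : R →+* R')
    (x : WProd p n R) (x' : WProd p n R') : Prop :=
  ∀ (j : J) (m : Fin (n j)), (x' j).coeff m = φ ((x j).coeff m)

/-- Families of homomorphisms `U(R) → ∏ W_(n j)(R)`, `R` a perfect `k`-algebra. -/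
def UHom (D : DMod p k ι) {J : Type} (n : J → ℕ) : Type (u + 1) :=
  ∀ (R : Type u) [CommRing R] [Algebra k R] [CharP R p] [PerfectRing R p], D.U R →+ WProd p n R

/-- The composition `H(R) → U(R) → ∏ W_(n j)(R)`. -/
noncomputable def UHom.onH {D : DMod p k ι} {J : Type} {n : J → ℕ} (F : UHom D n) (R : Type u) [CommRing R]
    [Algebra k R] [CharP R p] [PerfectRing R p] (A : D.H R) : WProd p n R :=
  F R (D.toU R A)

/-- The family is compatible with the maps induced by `φ : R → R'`. -/
def UHom.NaturalAt {D : DMod p k ι} {J : Type} {n : J → ℕ} (F : UHom D n) (R R' : Type u)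
    [CommRing R] [Algebra k R] [CharP R p] [PerfectRing R p]
    [CommRing R'] [Algebra k R'] [CharP R' p] [PerfectRing R' p] (φ : R →+* R') : Prop :=
  ∀ (A : D.H R) (A' : D.H R'), HMaps φ A A' → WMaps φ (F.onH R A) (F.onH R' A')

/-- The family is natural in the perfect `k`-algebra `R`. -/
def UHom.Natural {D : DMod p k ι} {J : Type} {n : J → ℕ} (F : UHom D n) : Prop :=
  ∀ (R R' : Type u) [CommRing R] [Algebra k R] [CharP R p] [PerfectRing R p]
    [CommRing R'] [Algebra k R'] [CharP R' p] [PerfectRing R' p] (φ : R →ₐ[k] R'),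
    F.NaturalAt R R' φ.toRingHom

/-- `U_D`, the cokernel of `F/p - 1 : F¹_N H → H` in quasi-algebraic groups, is isogenous to
`∏ W_(n j)`: there is a homomorphism `U(R) → ∏ W_(n j)(R)`, natural in the perfect `k`-algebra `R`,
which over every algebraically closed field `K` containing `k` (in particular over `k` itself, when
`k` is algebraically closed) is surjective with finite kernel. -/
def Isogenous (D : DMod p k ι) {J : Type} (n : J → ℕ) : Prop :=
  ∃ F : UHom D n, F.Natural ∧
    ∀ (K : Type u) [Field K] [IsAlgClosed K] [Algebra k K] [CharP K p] [PerfectRing K p],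
      Function.Surjective (F K) ∧ Finite (F K).ker

end Functoriality

end Pool.Agent.Helper93.UBr
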