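import Pool.Agent.Helper93.UBr.Data

/-!
# Exactness of the functionals
-/

open WittVector

namespace Pool.Agent.Helper93.UBr

universe u

namespace CData

variable {h : ℕ} [NeZero h] (C : CData h)
variable {p : ℕ} [Fact p.Prime] {k : Type u} [Field k]

section Nat

variable {R R' : Type u} [CommRing R] [CharP R p] [PerfectRing R p]
    [CommRing R'] [CharP R' p] [PerfectRing R' p]

omit [PerfectRing R p] [PerfectRing R' p] in
theorem map_frob (φ : R →+* R') (x : WittVector p R) :
    WittVector.map φ (frobenius x) = frobenius (WittVector.map φ x) := by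
  ext n
  rw [map_coeff, coeff_frobenius_charP, coeff_frobenius_charP, map_coeff, map_pow]

theorem map_ti (φ : R →+* R') (x : WittVector p R) :
    WittVector.map φ ((ti p R) x) = (ti p R') (WittVector.map φ x) := by
  obtain ⟨y, rfl⟩ := (frobeniusEquiv p R).surjective x
  have h1 : (ti p R) (frobeniusEquiv p R y) = y := (frobeniusEquiv p R).symm_apply_apply y
  have h2 : frobeniusEquiv p R y = frobenius y := rfl
  rw [h1, h2, map_frob]
  exact ((frobeniusEquiv p R').symm_apply_apply _).symm

theorem map_ti_pow (φ : R →+* R') (l : ℕ) (x : WittVector p R) :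
    WittVector.map φ (((ti p R) ^ l) x) = ((ti p R') ^ l) (WittVector.map φ x) := by
  induction l generalizing x with
  | zero => rfl
  | succ l ih => rw [pow_succ, pow_succ, RingAut.mul_apply, RingAut.mul_apply, ih, map_ti]

end Nat

theorem nat (R R' : Type u) [CommRing R] [Algebra k R] [CharP R p] [PerfectRing R p]
      [CommRing R'] [Algebra k R'] [CharP R' p] [PerfectRing R' p] (φ : R →ₐ[k] R')
      (A : (C.D p k).H R) (A' : (C.D p k).H R')
      (hA : ∀ i j, A'.mat i j = WittVector.map (φ : R →+* R') (A.mat i j)) (j : C.S ⊕ ZMod h) :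
      C.f (k := k) R' A' j = WittVector.map (φ : R →+* R') (C.f (k := k) R A j) := by
  rcases j with s | s
  · exact hA _ _
  · change (∑ l ∈ Finset.range h, (p : WittVector p R') ^ C.ht s l *
      ((ti p R') ^ l) (A'.mat (Sum.inl (l : ZMod h)) (Sum.inr ((l : ZMod h) + s)))) =
      WittVector.map (φ : R →+* R') (∑ l ∈ Finset.range h, (p : WittVector p R) ^ C.ht s l *
      ((ti p R) ^ l) (A.mat (Sum.inl (l : ZMod h)) (Sum.inr ((l : ZMod h) + s))))
    rw [map_sum]
    refine Finset.sum_congr rfl fun l _ => ?_
    rw [map_mul, map_pow, map_natCast, map_ti_pow, hA]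

section Surj

variable (R : Type u) [CommRing R] [Algebra k R] [CharP R p] [PerfectRing R p]

theorem pos_ne_diag (s : C.S) (a : ZMod h ⊕ ZMod h) : C.pos s ≠ (a, a) := by
  intro h1
  apply C.pos_swap s s
  rw [h1]
  rfl

/-- matrix with given values at the peaks -/
noncomputable def A0 (t : C.S → WittVector p R) : (C.D p k).H R :=
  ⟨Matrix.of fun a b => (∑ s, if C.pos s = (a, b) then t s else 0) -
      ∑ s, if C.pos s = (b, a) then t s else 0, by
    refine ⟨fun i j => ?_, fun i => ?_⟩
    · simp only [Matrix.of_apply]; ring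
    · simp only [Matrix.of_apply]; ring⟩

omit [Algebra k R] [CharP R p] [PerfectRing R p] in
theorem A0_pos (t : C.S → WittVector p R) (s : C.S) :
    (C.A0 (k := k) R t).mat (C.pos s).1 (C.pos s).2 = t s := by
  change (∑ s', if C.pos s' = ((C.pos s).1, (C.pos s).2) then t s' else 0) -
      (∑ s', if C.pos s' = ((C.pos s).2, (C.pos s).1) then t s' else 0) = t s
  rw [Finset.sum_eq_single s, Finset.sum_eq_zero, sub_zero, if_pos rfl]
  · intro s' _
    rw [if_neg]
    intro h1
    exact C.pos_swap s' s (by rw [h1]; rfl)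
  · intro s' _ hs'
    rw [if_neg]
    intro h1
    exact hs' (C.pos_inj (by rw [h1]))
  · intro h1; exact absurd (Finset.mem_univ _) h1

/-- matrix with given values at the main peaks -/
noncomputable def A1 (t : ZMod h → WittVector p R) : (C.D p k).H R :=
  ⟨Matrix.of fun a b => Sum.elim
      (fun i => Sum.elim (fun _ => 0) (fun j => if i = (C.c0 : ZMod h) then t (j - i) else 0) b)
      (fun j => Sum.elim (fun i => if i = (C.c0 : ZMod h) then - t (j - i) else 0)
        (fun _ => 0) b) a, by
    refine ⟨fun i j => ?_, fun i => ?_⟩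
    · simp only [Matrix.of_apply]
      rcases i with i | i <;> rcases j with j | j <;> simp only [Sum.elim_inl, Sum.elim_inr]
      · simp
      · split_ifs <;> simp
      · split_ifs <;> simp
      · simp
    · simp only [Matrix.of_apply]
      rcases i with i | i <;> simp⟩

omit [Algebra k R] [CharP R p] [PerfectRing R p] in
theorem A1_pos (t : ZMod h → WittVector p R) (s : C.S) :
    (C.A1 (k := k) R t).mat (C.pos s).1 (C.pos s).2 = 0 := by
  change Sum.elim
      (fun i => Sum.elim (fun _ => 0) (fun j => if i = (C.c0 : ZMod h) then t (j - i) else 0)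
        (C.pos s).2)
      (fun j => Sum.elim (fun i => if i = (C.c0 : ZMod h) then - t (j - i) else 0)
        (fun _ => 0) (C.pos s).2) (C.pos s).1 = 0
  rcases h1 : (C.pos s).1 with i | i <;> rcases h2 : (C.pos s).2 with j | j <;>
    simp only [Sum.elim_inl, Sum.elim_inr]
  · rw [if_neg]
    rintro rfl
    exact (C.pos_main s j).1 (Prod.ext h1 h2)
  · rw [if_neg]
    rintro rfl
    exact (C.pos_main s i).2 (Prod.ext h1 h2)

omit [Algebra k R] [CharP R p] [PerfectRing R p] in
theorem A1_wv (t : ZMod h → WittVector p R) (i j : ZMod h) :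
    (C.A1 (k := k) R t).mat (Sum.inl i) (Sum.inr j) = if i = (C.c0 : ZMod h) then t (j - i) else 0 :=
  rfl

omit [Algebra k R] in
theorem surj (t : C.S ⊕ ZMod h → WittVector p R) :
    ∃ A : (C.D p k).H R, ∀ j, (p : WittVector p R) ^ C.n j ∣ t j - C.f (k := k) R A j := by
  let A := C.A0 (k := k) R (fun s => t (Sum.inl s))
  let r : ZMod h → WittVector p R := fun s => t (Sum.inr s) - C.f (k := k) R A (Sum.inr s)
  let B := C.A1 (k := k) R (fun s => ((ti p R)⁻¹ ^ C.c0) (r s))
  refine ⟨A + B, fun j => ?_⟩
  have hz : t j - C.f (k := k) R (A + B) j = 0 := by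
    rw [map_add, Pi.add_apply]
    rcases j with s | s
    · have h1 : C.f (k := k) R A (Sum.inl s) = t (Sum.inl s) := by
        change A.mat (C.pos s).1 (C.pos s).2 = _
        exact C.A0_pos (k := k) R _ s
      have h2 : C.f (k := k) R B (Sum.inl s) = 0 := by
        change B.mat (C.pos s).1 (C.pos s).2 = _
        exact C.A1_pos (k := k) R _ s
      rw [h1, h2]; ring
    · have h2 : C.f (k := k) R B (Sum.inr s) = r s := by
        change (∑ l ∈ Finset.range h, (p : WittVector p R) ^ C.ht s l *
          ((ti p R) ^ l) (B.mat (Sum.inl (l : ZMod h)) (Sum.inr ((l : ZMod h) + s)))) = r s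
        rw [Finset.sum_eq_single C.c0]
        · rw [C.ht_c0, pow_zero, one_mul, A1_wv (k := k), if_pos rfl, add_sub_cancel_left,
            ← RingAut.mul_apply, inv_pow, mul_inv_cancel, RingAut.one_apply]
        · intro l hl hlc
          rw [A1_wv (k := k), if_neg, map_zero, mul_zero]
          intro h3
          apply hlc
          have h4 := congrArg ZMod.val h3
          rwa [ZMod.val_cast_of_lt (Finset.mem_range.1 hl), ZMod.val_cast_of_lt C.c0_lt] at h4
        · intro h3; exact absurd (Finset.mem_range.2 C.c0_lt) h3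
      rw [h2]
      simp only [r]; ring
  rw [hz]
  exact dvd_zero _

end Surj

end CData

end Pool.Agent.Helper93.UBr
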