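import Pool.Agent.Helper93.UBr.Blocks

/-!
# The isogeny for two cyclic words
-/

open WittVector

namespace Pool.Agent.Helper93.UBr

universe u

namespace CData

variable {h : ℕ} [NeZero h] (C : CData h)
variable {p : ℕ} [Fact p.Prime] {k : Type u} [Field k]

theorem val_add_one (l : ZMod h) : (l + 1).val = if l.val + 1 = h then 0 else l.val + 1 := by
  have h1 : (((l.val + 1 : ℕ) : ZMod h)) = l + 1 := by
    push_cast
    rw [ZMod.natCast_val, ZMod.cast_id]
  rw [← h1, ZMod.val_natCast]
  have h2 := ZMod.val_lt l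
  split_ifs with h3
  · rw [h3, Nat.mod_self]
  · exact Nat.mod_eq_of_lt (by omega)

/-- the mixed block -/
theorem solve_wv {K : Type u} [Field K] [IsAlgClosed K] [CharP K p] [PerfectRing K p]
    (a : ZMod h → ZMod h → WittVector p K)
    (hpk : ∀ t i j, C.pos t = (Sum.inl i, Sum.inr j) → (p : WittVector p K) ∣ a i j)
    (hsum : ∀ s, (p : WittVector p K) ^ C.N ∣ ∑ l ∈ Finset.range h, (p : WittVector p K) ^ C.ht s l *
      ((ti p K) ^ l) (a (l : ZMod h) ((l : ZMod h) + s))) :
    ∃ x y : ZMod h → ZMod h → WittVector p K,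
      (∀ i j, (p : WittVector p K) * y (i + 1) (j + 1) =
        (p : WittVector p K) ^ (C.w i + C.v j) * frobenius (x i j)) ∧
      ∀ i j, a i j = y i j - x i j := by
  have hh : 1 ≤ h := Nat.one_le_iff_ne_zero.2 (NeZero.ne h)
  have key : ∀ s : ZMod h, ∃ x y : ℕ → WittVector p K,
      (∀ l < h, (p : WittVector p K) * y (l + 1) =
        (p : WittVector p K) ^ (C.w l + C.v ((l : ZMod h) + s)) *
        (frobeniusEquiv p K : RingAut (WittVector p K)) (x l)) ∧
      (∀ l, 1 ≤ l → l < h → a (l : ZMod h) ((l : ZMod h) + s) = y l - x l) ∧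
      a ((0 : ℕ) : ZMod h) (((0 : ℕ) : ZMod h) + s) = y h - x 0 := by
    intro s
    refine chain_solution h C.N C.c0 (C.ht s) (fun l => C.w l + C.v ((l : ZMod h) + s))
      (fun l => a (l : ZMod h) ((l : ZMod h) + s)) hh (C.ht_rec s) (C.ht_zero s) (C.ht_h s)
      (C.ht_one s) ?_ (C.ht_mono s) (hsum s)
    intro m hm
    rcases C.pos_wv s m hm with h1 | ⟨h1, h2, t, h3⟩
    · exact Or.inl h1
    · exact Or.inr ⟨h1, h2, hpk t _ _ h3⟩
  choose x y hxy1 hxy2 hxy3 using key
  refine ⟨fun i j => x (j - i) i.val,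
    fun i j => if i.val = 0 then y (j - i) h else y (j - i) i.val, fun i j => ?_, fun i j => ?_⟩
  · beta_reduce
    have hi := ZMod.val_lt i
    have h1 := hxy1 (j - i) i.val hi
    have e1 : j + 1 - (i + 1) = j - i := by ring
    have e2 : ((i.val : ℕ) : ZMod h) = i := by rw [ZMod.natCast_val, ZMod.cast_id]
    have e3 : i + (j - i) = j := by ring
    rw [e2, e3] at h1
    rw [e1, val_add_one]
    have h2 : (frobeniusEquiv p K : RingAut (WittVector p K)) (x (j - i) i.val) =
      frobenius (x (j - i) i.val) := rfl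
    rw [← h2, ← h1]
    by_cases h3 : i.val + 1 = h
    · rw [if_pos h3, if_pos rfl, h3]
    · rw [if_neg h3, if_neg (by omega)]
  · beta_reduce
    have e2 : ((i.val : ℕ) : ZMod h) = i := by rw [ZMod.natCast_val, ZMod.cast_id]
    have e3 : i + (j - i) = j := by ring
    by_cases h3 : i.val = 0
    · rw [if_pos h3]
      have h1 := hxy3 (j - i)
      rw [h3] at e2
      rw [e2, e3] at h1
      rw [h1, h3]
    · rw [if_neg h3]
      have h1 := hxy2 (j - i) i.val (by omega) (ZMod.val_lt i)
      rw [e2, e3] at h1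
      exact h1

theorem inj (K : Type u) [Field K] [IsAlgClosed K] [Algebra k K] [CharP K p] [PerfectRing K p]
    (A : (C.D p k).H K)
    (hA : ∀ j, (p : WittVector p K) ^ C.n j ∣ C.f (k := k) K A j) :
    A ∈ (C.D p k).image K := by
  have hpk : ∀ s, (p : WittVector p K) ∣ A.mat (C.pos s).1 (C.pos s).2 := by
    intro s
    have := hA (Sum.inl s)
    change (p : WittVector p K) ^ 1 ∣ A.mat (C.pos s).1 (C.pos s).2 at this
    rwa [pow_one] at this
  obtain ⟨x1, y1, ⟨hx1, hx1'⟩, ⟨hy1, hy1'⟩, h1, h1'⟩ := solve_ww (p := p) (R := K) C.w C.w_le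
    C.w_succ C.ww (fun i j => A.mat (Sum.inl i) (Sum.inl j)) (fun i j => A.anti _ _)
    (fun i => A.diag _) (by
      intro i j hi hj
      by_cases hij : i = j
      · subst hij
        rw [A.diag]; exact dvd_zero _
      · obtain ⟨s, hs | hs⟩ := C.pos_ww i j hij hi hj
        · have := hpk s
          rwa [hs] at this
        · have := hpk s
          rw [hs] at this
          rw [A.anti (Sum.inl j) (Sum.inl i), dvd_neg]
          exact this)
  obtain ⟨x2, y2, ⟨hx2, hx2'⟩, ⟨hy2, hy2'⟩, h2, h2'⟩ := solve_vv (p := p) (R := K) C.v C.v_le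
    C.v_succ C.vv (fun i j => A.mat (Sum.inr i) (Sum.inr j)) (fun i j => A.anti _ _)
    (fun i => A.diag _) (by
      intro i j hi hj
      by_cases hij : i = j
      · subst hij
        rw [A.diag]; exact dvd_zero _
      · obtain ⟨s, hs | hs⟩ := C.pos_vv i j hij hi hj
        · have := hpk s
          rwa [hs] at this
        · have := hpk s
          rw [hs] at this
          rw [A.anti (Sum.inr j) (Sum.inr i), dvd_neg]
          exact this)
  obtain ⟨x3, y3, h3, h3'⟩ := C.solve_wv (p := p) (K := K)
    (fun i j => A.mat (Sum.inl i) (Sum.inr j)) (by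
      intro t i j ht
      have := hpk t
      rwa [ht] at this) (by
      intro s
      exact hA (Sum.inr s))
  rw [D_mem_image]
  let mk : (ZMod h → ZMod h → WittVector p K) → (ZMod h → ZMod h → WittVector p K) →
      (ZMod h → ZMod h → WittVector p K) → Matrix (ZMod h ⊕ ZMod h) (ZMod h ⊕ ZMod h)
        (WittVector p K) := fun a b c => Matrix.of fun i j => Sum.elim
      (fun i => Sum.elim (fun j => a i j) (fun j => b i j) j)
      (fun i => Sum.elim (fun j => - b j i) (fun j => c i j) j) i
  have hmk : ∀ a b c, ((∀ i j, a j i = - a i j) ∧ ∀ i, a i i = 0) →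
      ((∀ i j, c j i = - c i j) ∧ ∀ i, c i i = 0) →
      mk a b c ∈ ExtSq (ZMod h ⊕ ZMod h) (WittVector p K) := by
    intro a b c ⟨ha, ha'⟩ ⟨hc, hc'⟩
    refine ⟨fun i j => ?_, fun i => ?_⟩
    · rcases i with i | i <;> rcases j with j | j <;>
        simp only [mk, Matrix.of_apply, Sum.elim_inl, Sum.elim_inr]
      · exact ha i j
      · exact (neg_neg _).symm
      · exact hc i j
    · rcases i with i | i <;> simp only [mk, Matrix.of_apply, Sum.elim_inl, Sum.elim_inr]
      · exact ha' i
      · exact hc' i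
  refine ⟨⟨mk x1 x3 x2, hmk _ _ _ ⟨hx1, hx1'⟩ ⟨hx2, hx2'⟩⟩,
    ⟨mk y1 y3 y2, hmk _ _ _ ⟨hy1, hy1'⟩ ⟨hy2, hy2'⟩⟩, fun b b' => ?_, fun i j => ?_⟩
  · rcases b with b | b <;> rcases b' with b' | b'
    · exact h1 b b'
    · exact h3 b b'
    · change (p : WittVector p K) * (- y3 (b' + 1) (b + 1)) =
        (p : WittVector p K) ^ (C.v b + C.w b') * frobenius (- x3 b' b)
      rw [mul_neg, h3, map_neg, mul_neg, add_comm]
    · exact h2 b b'
  · rcases i with i | i <;> rcases j with j | j
    · exact h1' i j
    · exact h3' i j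
    · change A.mat (Sum.inr i) (Sum.inl j) = (- y3 j i) - (- x3 j i)
      rw [A.anti (Sum.inl j) (Sum.inr i)]
      have := h3' j i
      rw [this]; ring
    · exact h2' i j

/-- The isogeny. -/
theorem isog : Isogenous (C.D p k) C.n :=
  Isogenous.mk' (C.D p k) C.n (fun R _ _ _ _ => C.f (k := k) R)
    (fun R R' _ _ _ _ _ _ _ _ φ A A' hA j => C.nat R R' φ A A' hA j)
    (fun R _ _ _ _ A hA j => C.wd R A hA j)
    (fun K _ _ _ _ _ t => C.surj K t)
    (fun K _ _ _ _ _ A hA => C.inj K A hA)

theorem quasiPolarized [CharP k p] : (C.D p k).QuasiPolarized := by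
  classical
  let m : ZMod h → ℕ := fun i => C.ht 0 i.val
  have hm : ∀ i, m (i + 1) + (C.w i + C.v i) = m i + 1 := by
    intro i
    have hi := ZMod.val_lt i
    have h1 := C.ht_rec 0 i.val hi
    have e2 : ((i.val : ℕ) : ZMod h) = i := by rw [ZMod.natCast_val, ZMod.cast_id]
    rw [e2, add_zero] at h1
    simp only [m, val_add_one]
    by_cases h3 : i.val + 1 = h
    · rw [if_pos h3, C.ht_zero, ← C.ht_h 0, ← h1, h3]
    · rw [if_neg h3, h1]
  let J : Matrix (ZMod h ⊕ ZMod h) (ZMod h ⊕ ZMod h) (WittVector p k) :=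
    Matrix.of fun i j => Sum.elim
      (fun i => Sum.elim (fun _ => 0) (fun j => if i = j then (p : WittVector p k) ^ m i else 0) j)
      (fun i => Sum.elim (fun j => if i = j then - (p : WittVector p k) ^ m i else 0)
        (fun _ => 0) j) i
  refine ⟨J, ⟨fun i j => ?_, fun i => ?_⟩, ?_, ?_⟩
  · rcases i with i | i <;> rcases j with j | j <;>
      simp only [J, Matrix.of_apply, Sum.elim_inl, Sum.elim_inr]
    · simp
    · by_cases hij : i = j
      · subst hij; simp
      · rw [if_neg (fun h => hij h.symm), if_neg hij]; simp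
    · by_cases hij : i = j
      · subst hij; simp
      · rw [if_neg (fun h => hij h.symm), if_neg hij]; simp
    · simp
  · rcases i with i | i <;> simp [J]
  · -- the determinant
    intro hdet
    obtain ⟨x, hx0, hx⟩ := Matrix.exists_mulVec_eq_zero_iff.2 hdet
    apply hx0
    have hpne : ∀ n : ℕ, (p : WittVector p k) ^ n ≠ 0 := fun n =>
      pow_ne_zero _ (WittVector.p_nonzero p k)
    funext i
    rcases i with i | i
    · have h1 := congrFun hx (Sum.inr i)
      rw [Matrix.mulVec, dotProduct, Fintype.sum_sum_type] at h1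
      simp only [J, Matrix.of_apply, Sum.elim_inl, Sum.elim_inr, zero_mul, Finset.sum_const_zero,
        add_zero, ite_mul, Finset.sum_ite_eq, Finset.mem_univ, if_true, Pi.zero_apply] at h1
      rw [neg_mul, neg_eq_zero] at h1
      exact (mul_eq_zero.1 h1).resolve_left (hpne _)
    · have h1 := congrFun hx (Sum.inl i)
      rw [Matrix.mulVec, dotProduct, Fintype.sum_sum_type] at h1
      simp only [J, Matrix.of_apply, Sum.elim_inl, Sum.elim_inr, zero_mul, Finset.sum_const_zero,
        zero_add, ite_mul, Finset.sum_ite_eq, Finset.mem_univ, if_true, Pi.zero_apply] at h1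
      exact (mul_eq_zero.1 h1).resolve_left (hpne _)
  · ext1 a b
    -- entries of Xᵀ J X
    have hX : ∀ a b, (C.D p k).X a b = if a = sh h b then (p : WittVector p k) ^ C.e b else 0 :=
      fun a b => rfl
    have h1 : ((C.D p k).X.transpose * J * (C.D p k).X) a b =
        (p : WittVector p k) ^ (C.e a + C.e b) * J (sh h a) (sh h b) := by
      rw [Matrix.mul_apply, Finset.sum_eq_single (sh h b)]
      · rw [Matrix.mul_apply, Finset.sum_eq_single (sh h a)]
        · rw [Matrix.transpose_apply, hX, hX, if_pos rfl, if_pos rfl, pow_add]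
          ring
        · intro c _ hc
          rw [Matrix.transpose_apply, hX, if_neg hc, zero_mul]
        · intro h; exact absurd (Finset.mem_univ _) h
      · intro c _ hc
        rw [hX, if_neg hc, mul_zero]
      · intro h; exact absurd (Finset.mem_univ _) h
    rw [h1, Matrix.smul_apply, Matrix.map_apply, smul_eq_mul]
    rcases a with a | a <;> rcases b with b | b
    · change _ * (0 : WittVector p k) = (p : WittVector p k) * frobenius (0 : WittVector p k)
      rw [map_zero, mul_zero, mul_zero]
    · change (p : WittVector p k) ^ (C.w a + C.v b) *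
        (if a + 1 = b + 1 then (p : WittVector p k) ^ m (a + 1) else 0) =
        (p : WittVector p k) * frobenius (if a = b then (p : WittVector p k) ^ m a else 0)
      by_cases hab : a = b
      · subst hab
        rw [if_pos rfl, if_pos rfl, map_pow, map_natCast, ← pow_add, ← pow_succ', ← hm a,
          add_comm]
      · rw [if_neg (fun h => hab (add_right_cancel h)), if_neg hab, map_zero, mul_zero, mul_zero]
    · change (p : WittVector p k) ^ (C.v a + C.w b) *
        (if a + 1 = b + 1 then - (p : WittVector p k) ^ m (a + 1) else 0) =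
        (p : WittVector p k) * frobenius (if a = b then - (p : WittVector p k) ^ m a else 0)
      by_cases hab : a = b
      · subst hab
        rw [if_pos rfl, if_pos rfl, map_neg, map_pow, map_natCast, mul_neg, mul_neg, ← pow_add,
          ← pow_succ', ← hm a]
        congr 2
        ring
      · rw [if_neg (fun h => hab (add_right_cancel h)), if_neg hab, map_zero, mul_zero, mul_zero]
    · change _ * (0 : WittVector p k) = (p : WittVector p k) * frobenius (0 : WittVector p k)
      rw [map_zero, mul_zero, mul_zero]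

end CData

end Pool.Agent.Helper93.UBr
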