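import Pool.Agent.Helper93.UBr.Complete

/-!
# Topologically nilpotent shifts on functions with values in Witt vectors
-/

open WittVector

namespace Pool.Agent.Helper93.UBr

universe u

variable {p : ℕ} [Fact p.Prime] {R : Type u} [CommRing R] [CharP R p] [PerfectRing R p]

/-- The weighted shift `(ψ y)_u = p^(δ u) θ(y_(π u))`. -/
noncomputable def psi {I : Type*} (θ : RingAut (WittVector p R)) (π : I → I) (δ : I → ℕ) :
    (I → WittVector p R) →+ (I → WittVector p R) where
  toFun y u := (p : WittVector p R) ^ δ u * θ (y (π u))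
  map_zero' := by funext u; simp
  map_add' x y := by funext u; simp only [Pi.add_apply, map_add]; ring

omit [CharP R p] [PerfectRing R p] in
theorem psi_apply {I : Type*} (θ : RingAut (WittVector p R)) (π : I → I) (δ : I → ℕ)
    (y : I → WittVector p R) (u : I) :
    psi θ π δ y u = (p : WittVector p R) ^ δ u * θ (y (π u)) := rfl

omit [CharP R p] [PerfectRing R p] in
theorem map_p_pow (θ : RingAut (WittVector p R)) (n : ℕ) :
    θ ((p : WittVector p R) ^ n) = (p : WittVector p R) ^ n := by
  rw [map_pow, map_natCast]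

omit [CharP R p] [PerfectRing R p] in
theorem psi_iter_dvd {I : Type*} (θ : RingAut (WittVector p R)) (π : I → I) (δ : I → ℕ) (M : ℕ) :
    ∀ u, (∃ t < M, 1 ≤ δ (π^[t] u)) → ∀ y, (p : WittVector p R) ∣ ((psi θ π δ)^[M] y) u := by
  induction M with
  | zero => rintro u ⟨t, ht, -⟩; omega
  | succ M ih =>
    rintro u ⟨t, ht, htd⟩ y
    rw [Function.iterate_succ_apply', psi_apply]
    rcases Nat.eq_zero_or_pos t with rfl | h
    · exact Dvd.dvd.mul_right (dvd_pow_self _ (by simpa using Nat.one_le_iff_ne_zero.1 htd)) _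
    · obtain ⟨t', rfl⟩ : ∃ t', t = t' + 1 := ⟨t - 1, by omega⟩
      rw [Function.iterate_succ_apply] at htd
      obtain ⟨z, hz⟩ := ih (π u) ⟨t', by omega, htd⟩ y
      rw [hz, map_mul, map_natCast]
      exact ⟨_, mul_left_comm _ _ _⟩

theorem psi_surj {I : Type*} (θ : RingAut (WittVector p R)) (π : I → I) (δ : I → ℕ) (M : ℕ)
    (hM : ∀ u, ∃ t < M, 1 ≤ δ (π^[t] u)) (b : I → WittVector p R) :
    ∃ y : I → WittVector p R, ∀ u, y u - (p : WittVector p R) ^ δ u * θ (y (π u)) = b u := by
  have h := surjective_of_mod_p (AddMonoidHom.id (I → WittVector p R) - psi θ π δ) (by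
    intro b
    -- a = ∑_{i<M} ψ^i b
    choose c hc using fun u => psi_iter_dvd θ π δ M u (hM u) b
    refine ⟨∑ i ∈ Finset.range M, (psi θ π δ)^[i] b, c, ?_⟩
    have h1 : ∀ M : ℕ, (AddMonoidHom.id (I → WittVector p R) - psi θ π δ)
        (∑ i ∈ Finset.range M, (psi θ π δ)^[i] b) = b - (psi θ π δ)^[M] b := by
      intro M
      induction M with
      | zero => simp
      | succ M ih =>
        rw [Finset.sum_range_succ, map_add, ih, AddMonoidHom.sub_apply, AddMonoidHom.id_apply,
          Function.iterate_succ_apply']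
        abel
    rw [h1]
    funext u
    rw [Pi.add_apply, Pi.sub_apply, hc u, Pi.smul_apply, nsmul_eq_mul, sub_add_cancel])
  obtain ⟨y, hy⟩ := h b
  exact ⟨y, fun u => congrFun hy u⟩

theorem psi_inj {I : Type*} (θ : RingAut (WittVector p R)) (π : I → I) (δ : I → ℕ) (M : ℕ)
    (hM : ∀ u, ∃ t < M, 1 ≤ δ (π^[t] u)) (y : I → WittVector p R)
    (hy : ∀ u, y u = (p : WittVector p R) ^ δ u * θ (y (π u))) (u : I) : y u = 0 := by
  have key : ∀ n : ℕ, ∃ z : I → WittVector p R, (∀ u, y u = (p : WittVector p R) ^ n * z u) ∧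
      ∀ u, z u = (p : WittVector p R) ^ δ u * θ (z (π u)) := by
    intro n
    induction n with
    | zero => exact ⟨y, fun u => by simp, hy⟩
    | succ n ih =>
      obtain ⟨z, hz1, hz2⟩ := ih
      have h2 : psi θ π δ z = z := by
        funext u
        rw [psi_apply]
        exact (hz2 u).symm
      have h3 : ∀ u, (p : WittVector p R) ∣ z u := by
        intro u
        have := psi_iter_dvd θ π δ M u (hM u) z
        rwa [Function.iterate_fixed h2] at this
      choose c hc using h3
      refine ⟨c, fun u => ?_, fun u => ?_⟩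
      · rw [hz1, hc, pow_succ, mul_assoc]
      · apply p_mul_inj
        rw [← hc, hz2, hc, map_mul, map_natCast]
        ring
  apply eq_zero_of_forall_dvd
  intro n
  obtain ⟨z, hz, -⟩ := key n
  exact ⟨z u, hz u⟩

theorem psi_unique {I : Type*} (θ : RingAut (WittVector p R)) (π : I → I) (δ : I → ℕ) (M : ℕ)
    (hM : ∀ u, ∃ t < M, 1 ≤ δ (π^[t] u)) (y z b : I → WittVector p R)
    (hy : ∀ u, y u - (p : WittVector p R) ^ δ u * θ (y (π u)) = b u)
    (hz : ∀ u, z u - (p : WittVector p R) ^ δ u * θ (z (π u)) = b u) (u : I) : y u = z u := by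
  rw [← sub_eq_zero]
  refine psi_inj θ π δ M hM (fun u => y u - z u) (fun u => ?_) u
  have h1 := hy u
  have h2 := hz u
  rw [map_sub, mul_sub]
  linear_combination h1 - h2

end Pool.Agent.Helper93.UBr
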