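import Pool.Agent.Helper93.UBr.Defs
import Pool.Agent.Helper93.UBr.Shift
import Pool.Agent.Helper93.UBr.Chain

/-!
# A criterion for isogenies
-/

open WittVector

namespace Pool.Agent.Helper93.UBr

universe u

section Criterion

variable {p : ℕ} [Fact p.Prime]
variable {k : Type u} [Field k] {ι : Type} [Fintype ι] [DecidableEq ι]

theorem truncate_eq_zero_iff {R : Type u} [CommRing R] [CharP R p] [PerfectRing R p] (n : ℕ)
    (x : WittVector p R) : WittVector.truncate n x = 0 ↔ (p : WittVector p R) ^ n ∣ x := by
  rw [p_pow_dvd_iff, ← RingHom.mem_ker, mem_ker_truncate]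

/-- truncation of a family -/
noncomputable def truncFam {D : DMod p k ι} {J : Type} (n : J → ℕ) {R : Type u} [CommRing R]
    (f : D.H R →+ (J → WittVector p R)) : D.H R →+ WProd p n R where
  toFun A := fun j => WittVector.truncate (n j) (f A j)
  map_zero' := by
    funext j
    rw [map_zero, Pi.zero_apply, map_zero]
    rfl
  map_add' := by
    intro A B
    funext j
    rw [map_add, Pi.add_apply, map_add]
    rfl

theorem truncFam_apply {D : DMod p k ι} {J : Type} (n : J → ℕ) {R : Type u} [CommRing R]
    (f : D.H R →+ (J → WittVector p R)) (A : D.H R) (j : J) :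
    truncFam n f A j = WittVector.truncate (n j) (f A j) := rfl

omit [Fact p.Prime] in
theorem wprod_ext {J : Type} {n : J → ℕ} {R : Type u} {x y : WProd p n R} (h : ∀ j, x j = y j) :
    x = y := funext h

theorem truncFam_eq_zero {D : DMod p k ι} {J : Type} (n : J → ℕ) {R : Type u} [CommRing R]
    [CharP R p] [PerfectRing R p] (f : D.H R →+ (J → WittVector p R)) (A : D.H R) :
    truncFam n f A = 0 ↔ ∀ j, (p : WittVector p R) ^ n j ∣ f A j := by
  constructor
  · intro h j
    rw [← truncate_eq_zero_iff, ← truncFam_apply n f, h]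
    rfl
  · intro h
    apply wprod_ext
    intro j
    rw [truncFam_apply, (truncate_eq_zero_iff _ _).2 (h j)]
    rfl

/-- A family of additive maps to Witt vectors gives an isogeny as soon as it vanishes on the image
of `F/p - 1` modulo the right powers of `p` and is exact over algebraically closed fields. -/
theorem Isogenous.mk' (D : DMod p k ι) {J : Type} (n : J → ℕ)
    (f : ∀ (R : Type u) [CommRing R] [Algebra k R] [CharP R p] [PerfectRing R p],
      D.H R →+ (J → WittVector p R))
    (hnat : ∀ (R R' : Type u) [CommRing R] [Algebra k R] [CharP R p] [PerfectRing R p]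
      [CommRing R'] [Algebra k R'] [CharP R' p] [PerfectRing R' p] (φ : R →ₐ[k] R')
      (A : D.H R) (A' : D.H R'),
      (∀ i j, A'.mat i j = WittVector.map (φ : R →+* R') (A.mat i j)) →
      ∀ j : J, f R' A' j = WittVector.map (φ : R →+* R') (f R A j))
    (hwd : ∀ (R : Type u) [CommRing R] [Algebra k R] [CharP R p] [PerfectRing R p] (A : D.H R),
      A ∈ D.image R → ∀ j, (p : WittVector p R) ^ n j ∣ f R A j)
    (hsurj : ∀ (K : Type u) [Field K] [IsAlgClosed K] [Algebra k K] [CharP K p]
      [PerfectRing K p] (t : J → WittVector p K), ∃ A : D.H K,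
      ∀ j, (p : WittVector p K) ^ n j ∣ t j - f K A j)
    (hinj : ∀ (K : Type u) [Field K] [IsAlgClosed K] [Algebra k K] [CharP K p]
      [PerfectRing K p] (A : D.H K), (∀ j, (p : WittVector p K) ^ n j ∣ f K A j) →
      A ∈ D.image K) : Isogenous D n := by
  refine ⟨fun R _ _ _ _ => QuotientAddGroup.lift (D.image R) (truncFam n (f R)) (fun A hA => by
      rw [AddMonoidHom.mem_ker, truncFam_eq_zero]
      exact hwd R A hA), ?_, ?_⟩
  · intro R R' _ _ _ _ _ _ _ _ φ A A' hAA' j m
    change (WittVector.truncate (n j) (f R' A' j)).coeff m =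
      (φ : R →+* R') ((WittVector.truncate (n j) (f R A j)).coeff m)
    rw [coeff_truncate, coeff_truncate, hnat R R' φ A A' hAA' j, WittVector.map_coeff]
  · intro K _ _ _ _ _
    constructor
    · intro t
      choose t' ht' using fun j => WittVector.truncate_surjective p (n j) K (t j)
      obtain ⟨A, hA⟩ := hsurj K t'
      refine ⟨D.toU K A, ?_⟩
      change truncFam n (f K) A = t
      apply wprod_ext
      intro j
      rw [truncFam_apply, ← ht' j, ← sub_eq_zero, ← map_sub, truncate_eq_zero_iff, ← neg_sub,
        dvd_neg]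
      exact hA j
    · apply @Finite.of_subsingleton _ ?_
      constructor
      have key : ∀ u : (QuotientAddGroup.lift (D.image K) (truncFam n (f K)) (fun A hA => by
          rw [AddMonoidHom.mem_ker, truncFam_eq_zero]
          exact hwd K A hA)).ker, u = 0 := by
        rintro ⟨u, hu⟩
        obtain ⟨A, rfl⟩ := QuotientAddGroup.mk_surjective u
        rw [AddMonoidHom.mem_ker] at hu
        apply Subtype.ext
        change (QuotientAddGroup.mk A : D.H K ⧸ D.image K) = 0
        rw [QuotientAddGroup.eq_zero_iff]
        apply hinj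
        rw [← truncFam_eq_zero]
        exact hu
      intro a b
      rw [key a, key b]

/-- Reindexing an isogeny. -/
theorem Isogenous.reindex {D : DMod p k ι} {J J' : Type} {n : J → ℕ} (h : Isogenous D n)
    (e : J' ≃ J) : Isogenous D (fun j' => n (e j')) := by
  obtain ⟨F, hF1, hF2⟩ := h
  let G : UHom D (fun j' => n (e j')) := fun R _ _ _ _ =>
    { toFun := fun x => (fun j' => F R x (e j') : WProd p (fun j' => n (e j')) R)
      map_zero' := by
        apply wprod_ext
        intro j'
        rw [map_zero]
        rfl
      map_add' := by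
        intro x y
        apply wprod_ext
        intro j'
        rw [map_add]
        rfl }
  have hG : ∀ (R : Type u) [CommRing R] [Algebra k R] [CharP R p] [PerfectRing R p] (x : D.U R)
      (j' : J'), G R x j' = F R x (e j') := fun R _ _ _ _ x j' => rfl
  refine ⟨G, ?_, ?_⟩
  · intro R R' _ _ _ _ _ _ _ _ φ A A' hAA' j m
    exact hF1 R R' φ A A' hAA' (e j) m
  · intro K _ _ _ _ _
    obtain ⟨h1, h2⟩ := hF2 K
    constructor
    · intro t
      obtain ⟨x, hx⟩ := h1 (Equiv.piCongrLeft (fun j => TruncatedWittVector p (n j) K) e t)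
      refine ⟨x, ?_⟩
      apply wprod_ext
      intro j'
      rw [hG, hx]
      exact Equiv.piCongrLeft_apply_apply (fun j => TruncatedWittVector p (n j) K) e t j'
    · refine Finite.of_injective (β := (F K).ker) (fun x => ⟨x.1, ?_⟩) ?_
      · rw [AddMonoidHom.mem_ker]
        apply wprod_ext
        intro j
        obtain ⟨j', rfl⟩ := e.surjective j
        exact (hG K x.1 j').symm.trans (congrFun ((AddMonoidHom.mem_ker).1 x.2) j')
      · intro x y hxy
        apply Subtype.ext
        simpa using hxy

end Criterion

end Pool.Agent.Helper93.UBr
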